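import Pool.Agent.Helper29.CR.K3core
import Pool.Agent.Helper46.CR.C3

/-!
# CR, leaf K3 (statement of the stub): from `h2_tail_core` and C3
-/

set_option autoImplicit false

namespace Pool.Agent.Helper16.CR

open Complex Filter Topology MeasureTheory Set Metric
open Pool.Agent.Helper13.Bsd Pool.Agent.Helper7.GW Pool.Agent.Helper58.BSD Pool.Agent.Helper29.MS

variable {v : ℝ → ℝ} {G : ℂ → ℂ} {A a η B c : ℝ} {k : ℕ}

/-- K3. the tail of the mean square, uniformly in `σ` (from C3 and `growth_L2`, as C6) -/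
theorem h2_tail (hF : Frame v G A a η B c k) {L : ℂ → ℂ} (hL : Branch v G a L) (e : ℝ) (he : 0 < e) :
    ∃ R : ℝ, 0 < R ∧ ∀ σ : ℝ, 0 < σ → σ ≤ 1 →
      ∫ τ in {τ : ℝ | R < |τ|}, ‖deriv (VV L (kap G)) ((σ : ℂ) + (τ : ℂ) * I)‖ ^ 2 ≤ e / σ :=
  h2_tail_core hF hL (growth_L2_deriv hF hL) e he

end Pool.Agent.Helper16.CR
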