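import Pool.Agent.Helper29.MS.Branch

/-!
# CR, leaf C5: the derivative of `VV` is bounded near `0`

Same proof as `near_zero` (MS/Branch.lean): `VV L (kap G) w = - ℓ w / w = - dslope ℓ 0 w` near `0` in the right half plane,
and `dslope ℓ 0` is holomorphic near `0`.
-/

set_option autoImplicit false

namespace Pool.Agent.Helper16.CR

open Complex Filter Topology MeasureTheory Set Metric
open Pool.Agent.Helper13.Bsd Pool.Agent.Helper7.GW Pool.Agent.Helper58.BSD Pool.Agent.Helper29.MS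

variable {v : ℝ → ℝ} {G : ℂ → ℂ} {A a η B c : ℝ} {k : ℕ}

theorem near_zero_deriv (hF : Frame v G A a η B c k) {L : ℂ → ℂ} (hL : Branch v G a L) :
    ∃ δ K : ℝ, 0 < δ ∧ 0 ≤ K ∧ ∀ w : ℂ, 0 < w.re → ‖w‖ < δ → ‖deriv (VV L (kap G)) w‖ ≤ K := by
  have hη := hF.setup.hη
  have hopen : ∀ x : ℝ, IsOpen {w : ℂ | x < w.re} := fun x => isOpen_lt continuous_const continuous_re
  have hconv : ∀ x : ℝ, Convex ℝ {w : ℂ | x < w.re} := fun x => convex_halfSpace_re_gt x
  have hreal : ∀ x : ℝ, 0 < x → ((L x).re : ℂ) = L x := by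
    intro x hx
    have h1 := hL.conj (x : ℂ) (by simpa using hx)
    rw [conj_ofReal] at h1
    exact conj_eq_iff_re.mp h1.symm
  have hGreal : ∀ x : ℝ, 0 < x → G x = ((Real.exp (L x).re : ℝ) : ℂ) := by
    intro x hx
    rw [← hL.exp (x : ℂ) (by simpa using hx), ofReal_exp, hreal x hx]
  have h0mem : (0 : ℂ) ∈ {s : ℂ | -η < s.re} := by
    show -η < (0 : ℂ).re
    simpa using hη
  have hG0d : DifferentiableAt ℂ G 0 := hF.setup.diff.differentiableAt ((hopen (-η)).mem_nhds h0mem)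
  have hG0c : ContinuousAt G 0 := hG0d.continuousAt
  have hlim : Tendsto (fun x : ℝ => G (x : ℂ)) (𝓝[>] 0) (𝓝 (G 0)) := by
    have h1 : Tendsto (fun x : ℝ => (x : ℂ)) (𝓝[>] (0 : ℝ)) (𝓝 ((0 : ℝ) : ℂ)) :=
      (continuous_ofReal.tendsto 0).mono_left nhdsWithin_le_nhds
    rw [ofReal_zero] at h1
    exact hG0c.tendsto.comp h1
  -- `G 0` is a positive real number
  have hG0im : (G 0).im = 0 := by
    have h1 : Tendsto (fun x : ℝ => (G (x : ℂ)).im) (𝓝[>] 0) (𝓝 (G 0).im) :=
      (continuous_im.tendsto _).comp hlim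
    have h2 : Tendsto (fun x : ℝ => (G (x : ℂ)).im) (𝓝[>] 0) (𝓝 0) := by
      apply tendsto_const_nhds.congr'
      filter_upwards [self_mem_nhdsWithin] with x hx
      rw [hGreal x hx, ofReal_im]
    exact tendsto_nhds_unique h1 h2
  have hG0re : 0 ≤ (G 0).re := by
    have h1 : Tendsto (fun x : ℝ => (G (x : ℂ)).re) (𝓝[>] 0) (𝓝 (G 0).re) :=
      (continuous_re.tendsto _).comp hlim
    apply ge_of_tendsto h1
    filter_upwards [self_mem_nhdsWithin] with x hx
    rw [hGreal x hx, ofReal_re]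
    exact (Real.exp_pos _).le
  have hG0eq : G 0 = ((G 0).re : ℂ) := by
    apply Complex.ext <;> simp [hG0im]
  have hG0pos : 0 < (G 0).re := by
    rcases hG0re.eq_or_lt with h | h
    · exfalso
      apply hF.zero
      rw [hG0eq, ← h, ofReal_zero]
    · exact h
  have hG0n : ‖G 0‖ = (G 0).re := by
    rw [hG0eq, norm_real, Real.norm_eq_abs, ofReal_re, abs_of_pos hG0pos]
  have hpos : 0 < ‖G 0‖ := by rw [hG0n]; exact hG0pos
  obtain ⟨δ0, hδ0, hδ⟩ := Metric.continuousAt_iff.mp hG0c ‖G 0‖ hpos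
  set δ1 := min δ0 η with hδ1
  have hδ1pos : 0 < δ1 := lt_min hδ0 hη
  have hball : ∀ w ∈ ball (0 : ℂ) δ1, DifferentiableAt ℂ G w ∧ G w / G 0 ∈ slitPlane := by
    intro w hw
    rw [mem_ball, dist_zero_right] at hw
    constructor
    · apply hF.setup.diff.differentiableAt
      apply (hopen (-η)).mem_nhds
      have h1 := abs_lt.mp ((abs_re_le_norm w).trans_lt (hw.trans_le (min_le_right _ _)))
      exact h1.1
    · have h1 := hδ (x := w) (by rw [dist_zero_right]; exact hw.trans_le (min_le_left _ _))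
      rw [dist_eq_norm] at h1
      have h2 : G w / G 0 = 1 + (G w - G 0) / G 0 := by
        have := hF.zero
        field_simp
        ring
      rw [h2]
      apply mem_slitPlane_of_norm_lt_one
      rw [norm_div, div_lt_one hpos]
      exact h1
  set ℓ : ℂ → ℂ := fun w => log (G w / G 0) with hℓ
  have hℓd : ∀ w ∈ ball (0 : ℂ) δ1, DifferentiableAt ℂ ℓ w := fun w hw =>
    ((hball w hw).1.div_const _).clog (hball w hw).2
  have hℓ0 : ℓ 0 = 0 := by
    simp only [hℓ]
    rw [div_self hF.zero, log_one]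
  have hℓe : ∀ w ∈ ball (0 : ℂ) δ1, cexp (ℓ w) = G w / G 0 := fun w hw =>
    exp_log (slitPlane_ne_zero (hball w hw).2)
  set D : Set ℂ := ball (0 : ℂ) δ1 ∩ {w : ℂ | 0 < w.re} with hD
  have hDo : IsOpen D := isOpen_ball.inter (hopen 0)
  have hDp : IsPreconnected D := ((convex_ball _ _).inter (hconv 0)).isPreconnected
  have hHd : DifferentiableOn ℂ (fun w => L w - ℓ w) D := by
    apply DifferentiableOn.sub
    · exact hL.diff.mono inter_subset_right
    · intro w hw
      exact (hℓd w hw.1).differentiableWithinAt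
  have hHe : ∀ w ∈ D, cexp (L w - ℓ w) = G 0 := by
    intro w hw
    rw [exp_sub, hL.exp w hw.2, hℓe w hw.1]
    have h1 := hF.rh w hw.2
    have h2 := hF.zero
    field_simp
  set x1 : ℝ := δ1 / 2 with hx1
  have hx1pos : 0 < x1 := by positivity
  have hx1D : (x1 : ℂ) ∈ D := by
    refine ⟨?_, ?_⟩
    · rw [mem_ball, dist_zero_right, norm_real, Real.norm_eq_abs, abs_of_pos hx1pos]
      linarith
    · show 0 < ((x1 : ℝ) : ℂ).re
      rw [ofReal_re]
      exact hx1pos
  have hval : L x1 - ℓ x1 = -(kap G : ℂ) := by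
    have h1 : ℓ x1 = ((Real.log (Real.exp (L x1).re / (G 0).re) : ℝ) : ℂ) := by
      change log (G x1 / G 0) = _
      rw [hGreal x1 hx1pos]
      conv_lhs => rw [hG0eq]
      rw [← ofReal_div, ofReal_log (by positivity)]
    rw [h1, ← hreal x1 hx1pos, ← ofReal_sub, ← ofReal_neg]
    congr 1
    rw [ofReal_re, Real.log_div (Real.exp_ne_zero _) hG0pos.ne', Real.log_exp, kap, hG0n]
    ring
  have hLℓ : ∀ w ∈ D, L w + (kap G : ℂ) = ℓ w := by
    intro w hw
    have h1 := const_of_exp hDo hDp hHd hHe hw hx1D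
    rw [hval] at h1
    linear_combination h1
  -- `VV = - dslope ℓ 0` on `D`
  have hℓon : DifferentiableOn ℂ ℓ (ball (0 : ℂ) δ1) := fun w hw => (hℓd w hw).differentiableWithinAt
  have hds : DifferentiableOn ℂ (dslope ℓ 0) (ball (0 : ℂ) δ1) :=
    (Complex.differentiableOn_dslope (isOpen_ball.mem_nhds (mem_ball_self hδ1pos))).mpr hℓon
  have hVV : ∀ w ∈ D, VV L (kap G) w = -dslope ℓ 0 w := by
    intro w hw
    have hw0 : w ≠ 0 := by
      rintro rfl
      have h1 : (0 : ℝ) < (0 : ℂ).re := hw.2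
      simp at h1
    unfold VV
    rw [hLℓ w hw, dslope_of_ne _ hw0, slope_def_field, hℓ0, sub_zero, sub_zero, neg_div]
  have hdc : ContinuousAt (deriv (dslope ℓ 0)) 0 :=
    ((hds.deriv isOpen_ball).differentiableAt (isOpen_ball.mem_nhds (mem_ball_self hδ1pos))).continuousAt
  obtain ⟨δ2, hδ2, hδ2'⟩ := Metric.continuousAt_iff.mp hdc 1 one_pos
  refine ⟨min δ1 δ2, ‖deriv (dslope ℓ 0) 0‖ + 1, lt_min hδ1pos hδ2, by positivity, ?_⟩
  intro w hw hwn
  have hwD : w ∈ D := ⟨by rw [mem_ball, dist_zero_right]; exact hwn.trans_le (min_le_left _ _), hw⟩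
  have hev : VV L (kap G) =ᶠ[𝓝 w] fun z => -dslope ℓ 0 z := by
    filter_upwards [hDo.mem_nhds hwD] with z hz
    exact hVV z hz
  have h1 := hδ2' (x := w) (by rw [dist_zero_right]; exact hwn.trans_le (min_le_right _ _))
  rw [dist_eq_norm] at h1
  rw [hev.deriv_eq]
  have h2 : deriv (fun z => -dslope ℓ 0 z) w = -deriv (dslope ℓ 0) w := by
    rw [show (fun z => -dslope ℓ 0 z) = -(dslope ℓ 0) from rfl, deriv.neg]
  rw [h2, norm_neg]
  have h3 := norm_le_norm_add_norm_sub' (deriv (dslope ℓ 0) w) (deriv (dslope ℓ 0) 0)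
  linarith

end Pool.Agent.Helper16.CR
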