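import Pool.Agent.Helper16.OM.Main
import Pool.Agent.Helper29.MS.HDef

/-!
# CR, V3a (second hand): `hs` is measurable and locally bounded
-/

set_option autoImplicit false

namespace Pool.Agent.Helper29.CR

open Complex Filter Topology MeasureTheory Set
open Pool.Agent.Helper13.Bsd Pool.Agent.Helper7.GW Pool.Agent.Helper58.BSD Pool.Agent.Helper29.MS
open Pool.Agent.Helper16.OM

section

variable (W : WeierstrassCurve ℤ) (N : ℕ → ℕ)
    (hNdef : ∀ p : ℕ, N p = 1 + ((Finset.range p ×ˢ Finset.range p).filter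
      (fun q : ℕ × ℕ => (p : ℤ) ∣ ((q.2 : ℤ) ^ 2 + W.a₁ * (q.1 : ℤ) * (q.2 : ℤ) + W.a₃ * (q.2 : ℤ)
        - ((q.1 : ℤ) ^ 3 + W.a₂ * (q.1 : ℤ) ^ 2 + W.a₄ * (q.1 : ℤ) + W.a₆)))).card)

private theorem measurable_TTb : Measurable (TTb N (badW W)) := by
  have h1 : Measurable (fun q : ℕ × ℝ => ∑ p ∈ (Finset.range q.1).filter
      (fun p : ℕ => p.Prime ∧ ¬ badW W p ∧ q.2 ≤ (p : ℝ) ^ 2),
      (((p : ℝ) + 1 - N p) ^ 2 - 2 * p) / (2 * (p : ℝ) ^ 2)) := by
    refine measurable_from_prod_countable_right fun n => ?_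
    simp only [Finset.sum_filter]
    apply Finset.measurable_fun_sum
    intro p _
    apply Measurable.ite _ measurable_const measurable_const
    have e2 : MeasurableSet {x : ℝ | x ≤ (p : ℝ) ^ 2} := measurableSet_Iic
    have e3 : MeasurableSet {x : ℝ | p.Prime ∧ ¬ badW W p} := MeasurableSet.const _
    have e4 := e3.inter e2
    refine e4.congr ?_
    ext x
    simp only [mem_inter_iff, Set.mem_ofPred_eq, and_assoc]
  exact h1.comp (Nat.measurable_ceil.prodMk measurable_id)

private theorem measurable_PE1 : Measurable (PE W N) := by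
  have h1 : Measurable (fun n : ℕ => ∏ p ∈ (Finset.range n).filter
    (fun p : ℕ => Nat.Prime p ∧ ¬ (((p : ℕ) : ℤ) ∣ W.Δ)), ((N p : ℝ) / (p : ℝ))) := measurable_from_nat
  exact h1.comp Nat.measurable_ceil

theorem measurable_hs (F : ℂ → ℂ) : Measurable (hs W N F) := by
  unfold hs
  have h1 := measurable_PE1 W N
  have h2 := measurable_TTb W N
  have h3 : Measurable (fun x : ℝ => Real.exp (TTb N (badW W) x)) := Real.measurable_exp.comp h2
  have h4 : Measurable (fun x : ℝ => kon F / 2 * Real.log x ^ (analyticOrderNatAt F 1)) :=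
    (Real.measurable_log.pow_const _).const_mul _
  exact Real.measurable_log.comp ((h1.mul h3).div h4)

include hNdef in
theorem hs_bdd (hΔ : W.Δ ≠ 0) (F : ℂ → ℂ) (hFd : Differentiable ℂ F) (hF : EulerHyp W N F) (a b : ℝ)
    (ha : 0 < a) : ∃ C : ℝ, 0 ≤ C ∧ ∀ t : ℝ, a ≤ t → t ≤ b → |hs W N F (Real.exp t)| ≤ C := by
  set c : ℕ → ℝ := fun p => (((p : ℝ) + 1 - N p) ^ 2 - 2 * p) / (2 * (p : ℝ) ^ 2) with hc
  refine ⟨8 * Real.exp (2 * b) + (∑ p ∈ Finset.range ⌈Real.exp b⌉₊, |c p|) +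
    (analyticOrderNatAt F 1 : ℕ) * (|Real.log a| + |Real.log b|)
    + |Real.log (kon F / 2)|, by positivity, fun t hat htb => ?_⟩
  have ht : 0 < t := lt_of_lt_of_le ha hat
  rw [hs_exp W N hNdef hΔ F hFd hF t ht]
  have h1 := LL_bound N (badW W) (hN_of W N hNdef) (ap_bound W N hNdef) t ht.le
  have h2 : 8 * Real.exp (2 * t) ≤ 8 * Real.exp (2 * b) := by
    have := Real.exp_le_exp.mpr (show 2 * t ≤ 2 * b by linarith)
    linarith
  have h3 : |TTb N (badW W) (Real.exp t)| ≤ ∑ p ∈ Finset.range ⌈Real.exp b⌉₊, |c p| := by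
    unfold TTb
    refine (Finset.abs_sum_le_sum_abs _ _).trans ?_
    refine Finset.sum_le_sum_of_subset_of_nonneg ?_ fun _ _ _ => abs_nonneg _
    refine (Finset.filter_subset _ _).trans ?_
    exact Finset.range_subset_range.mpr (Nat.ceil_mono (Real.exp_le_exp.mpr htb))
  have h5 : |Real.log t| ≤ |Real.log a| + |Real.log b| := by
    have h6 := Real.log_le_log ha hat
    have h7 := Real.log_le_log ht htb
    rw [abs_le]
    have h8 := neg_abs_le (Real.log a)
    have h9 := le_abs_self (Real.log b)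
    have h10 := abs_nonneg (Real.log a)
    have h11 := abs_nonneg (Real.log b)
    constructor <;> linarith
  have h6 : |(analyticOrderNatAt F 1 : ℕ) * Real.log t| ≤
      (analyticOrderNatAt F 1 : ℕ) * (|Real.log a| + |Real.log b|) := by
    rw [abs_mul, Nat.abs_cast]
    exact mul_le_mul_of_nonneg_left h5 (Nat.cast_nonneg _)
  have h7 := abs_le.mp h1
  have h8 := abs_le.mp h6
  have h3' := abs_le.mp h3
  have h9 := le_abs_self (Real.log (kon F / 2))
  have h10 := neg_abs_le (Real.log (kon F / 2))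
  rw [abs_le]
  constructor <;> linarith [h7.1, h7.2, h8.1, h8.2, h3'.1, h3'.2]

end

end Pool.Agent.Helper29.CR
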