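import Mathlib

/-!
# CR, D3: mean square almost periodic functions have a limiting distribution

If `u` is approximated in quadratic mean by trigonometric polynomials, then `(1/T) ∫_0^T Φ(u)` converges for every bounded
continuous `Φ`. For a trigonometric polynomial `P` the mean of `p(P)` exists for each polynomial `p` (products of exponentials are
exponentials), so by Weierstrass the mean of `Φ(P)` exists; and
`|Φ x - Φ y| ≤ e + 2 M y² / R² + 2 M (x - y)² / δ²` compares `Φ(u)` and `Φ(P)`.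
-/

set_option autoImplicit false

namespace Pool.Agent.Helper16.CR

open Complex Filter Topology MeasureTheory Set

private noncomputable def d3e (γ : ℝ) : ℝ → ℂ := fun t => cexp (((γ * t : ℝ) : ℂ) * I)

private theorem d3e_cont (γ : ℝ) : Continuous (d3e γ) := by
  unfold d3e
  fun_prop

private theorem d3e_norm (γ t : ℝ) : ‖d3e γ t‖ = 1 := by
  unfold d3e
  exact Complex.norm_exp_ofReal_mul_I _

private theorem d3e_mul (γ γ' : ℝ) : d3e γ * d3e γ' = d3e (γ + γ') := by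
  funext t
  simp only [Pi.mul_apply, d3e]
  rw [← Complex.exp_add]
  congr 1
  push_cast
  ring

private theorem d3e_zero : d3e 0 = 1 := by
  funext t
  simp [d3e]

private theorem d3e_conj (γ t : ℝ) : (starRingEnd ℂ) (d3e γ t) = d3e (-γ) t := by
  unfold d3e
  rw [← Complex.exp_conj, map_mul, conj_ofReal, conj_I]
  congr 1
  push_cast
  ring

/-- continuous with a mean -/
private def HM (f : ℝ → ℂ) : Prop :=
  Continuous f ∧ ∃ l : ℂ, Tendsto (fun T : ℝ => ((1 / T : ℝ) : ℂ) * ∫ t in Ioc 0 T, f t) atTop (𝓝 l)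

private theorem hm_int {f : ℝ → ℂ} (hf : Continuous f) (T : ℝ) : IntegrableOn f (Ioc 0 T) :=
  (hf.continuousOn.integrableOn_compact isCompact_Icc).mono_set Ioc_subset_Icc_self

private theorem hm_add {f g : ℝ → ℂ} (hf : HM f) (hg : HM g) : HM (f + g) := by
  obtain ⟨hfc, l, hl⟩ := hf
  obtain ⟨hgc, l', hl'⟩ := hg
  refine ⟨hfc.add hgc, l + l', (hl.add hl').congr fun T => ?_⟩
  rw [← mul_add, ← integral_add (hm_int hfc T) (hm_int hgc T)]
  rfl

private theorem hm_smul {f : ℝ → ℂ} (c : ℂ) (hf : HM f) : HM (c • f) := by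
  obtain ⟨hfc, l, hl⟩ := hf
  refine ⟨hfc.const_smul c, c * l, (hl.const_mul c).congr fun T => ?_⟩
  have h1 : ∫ t in Ioc 0 T, (c • f) t = c * ∫ t in Ioc 0 T, f t := by
    simp only [Pi.smul_apply, smul_eq_mul]
    exact integral_const_mul c _
  rw [h1]
  ring

private theorem hm_zero : HM 0 := by
  refine ⟨continuous_const, 0, ?_⟩
  simp

private theorem hm_e (γ : ℝ) : HM (d3e γ) := by
  refine ⟨d3e_cont γ, ?_⟩
  by_cases hγ : γ = 0
  · subst hγ
    refine ⟨1, ?_⟩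
    rw [d3e_zero]
    apply tendsto_const_nhds.congr'
    filter_upwards [eventually_gt_atTop 0] with T hT
    have h1 : ∫ t in Ioc 0 T, (1 : ℝ → ℂ) t = (T : ℂ) := by
      simp only [Pi.one_apply]
      rw [setIntegral_const, measureReal_def, Real.volume_Ioc, sub_zero, ENNReal.toReal_ofReal hT.le]
      simp
    rw [h1, ← ofReal_mul, one_div, inv_mul_cancel₀ hT.ne', ofReal_one]
  · refine ⟨0, ?_⟩
    have hc : (γ : ℂ) * I ≠ 0 := mul_ne_zero (by exact_mod_cast hγ) I_ne_zero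
    rw [tendsto_zero_iff_norm_tendsto_zero]
    have h1 : Tendsto (fun T : ℝ => (1 / T) * (2 / |γ|)) atTop (𝓝 0) := by
      have h2 : Tendsto (fun T : ℝ => 1 / T) atTop (𝓝 0) := by
        simpa using tendsto_inv_atTop_zero (𝕜 := ℝ)
      simpa using h2.mul_const (2 / |γ|)
    refine squeeze_zero' (Eventually.of_forall fun T => norm_nonneg _) ?_ h1
    filter_upwards [eventually_gt_atTop 0] with T hT
    rw [norm_mul, Complex.norm_real, Real.norm_eq_abs, abs_of_pos (by positivity : 0 < 1 / T)]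
    apply mul_le_mul_of_nonneg_left _ (by positivity)
    rw [← intervalIntegral.integral_of_le hT.le]
    have h3 : ∀ t : ℝ, d3e γ t = cexp ((γ : ℂ) * I * t) := by
      intro t
      unfold d3e
      congr 1
      push_cast
      ring
    simp only [h3]
    rw [integral_exp_mul_complex hc, norm_div, norm_mul, Complex.norm_I, mul_one, Complex.norm_real,
      Real.norm_eq_abs]
    apply div_le_div_of_nonneg_right _ (abs_nonneg _)
    refine (norm_sub_le _ _).trans ?_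
    rw [← h3, ← h3, d3e_norm, d3e_norm]
    norm_num

private noncomputable def d3A : Subalgebra ℂ (ℝ → ℂ) := Algebra.adjoin ℂ (Set.range d3e)

private theorem hm_mem {f : ℝ → ℂ} (hf : f ∈ d3A) : HM f := by
  have h1 : f ∈ Submodule.span ℂ (Submonoid.closure (Set.range d3e) : Set (ℝ → ℂ)) := by
    rw [← Algebra.adjoin_eq_span]
    exact hf
  have h2 : ∀ g ∈ Submonoid.closure (Set.range d3e), g ∈ Set.range d3e := by
    intro g hg
    induction hg using Submonoid.closure_induction with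
    | mem x hx => exact hx
    | one => exact ⟨0, d3e_zero⟩
    | mul x y _ _ hx hy =>
      obtain ⟨γ, rfl⟩ := hx
      obtain ⟨γ', rfl⟩ := hy
      exact ⟨γ + γ', (d3e_mul γ γ').symm⟩
  clear hf
  induction h1 using Submodule.span_induction with
  | mem x hx =>
    obtain ⟨γ, rfl⟩ := h2 x hx
    exact hm_e γ
  | zero => exact hm_zero
  | add x y _ _ hx hy => exact hm_add hx hy
  | smul a x _ hx => exact hm_smul a hx

private theorem d3e_mem (γ : ℝ) : d3e γ ∈ d3A := Algebra.subset_adjoin (Set.mem_range_self γ)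

/-- a real trigonometric polynomial (real part of a complex one), with its properties -/
private theorem d3_real (s : Finset ℝ) (c : ℝ → ℂ) : ∃ P : ℝ → ℝ, Continuous P ∧ (∃ M : ℝ, 0 ≤ M ∧ ∀ t, |P t| ≤ M) ∧
    (fun t => (P t : ℂ)) ∈ d3A ∧
    ∀ t x : ℝ, (x - P t) ^ 2 ≤ ‖(x : ℂ) - ∑ γ ∈ s, c γ * cexp (((γ * t : ℝ) : ℂ) * I)‖ ^ 2 := by
  set Q : ℝ → ℂ := fun t => ∑ γ ∈ s, c γ * cexp (((γ * t : ℝ) : ℂ) * I) with hQ
  have hQc : Continuous Q := by
    rw [hQ]
    fun_prop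
  refine ⟨fun t => (Q t).re, continuous_re.comp hQc, ⟨∑ γ ∈ s, ‖c γ‖, by positivity, fun t => ?_⟩, ?_, ?_⟩
  · refine (abs_re_le_norm _).trans ?_
    refine (norm_sum_le _ _).trans (Finset.sum_le_sum fun γ _ => ?_)
    rw [norm_mul, Complex.norm_exp_ofReal_mul_I, mul_one]
  · have h1 : (fun t => (((Q t).re : ℝ) : ℂ)) =
        ∑ γ ∈ s, ((c γ / 2) • d3e γ + ((starRingEnd ℂ) (c γ) / 2) • d3e (-γ)) := by
      funext t
      rw [Finset.sum_apply]
      have h2 : (((Q t).re : ℝ) : ℂ) = (Q t + (starRingEnd ℂ) (Q t)) / 2 := by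
        rw [Complex.re_eq_add_conj]
      rw [h2, hQ]
      simp only
      rw [map_sum, ← Finset.sum_add_distrib, Finset.sum_div]
      refine Finset.sum_congr rfl fun γ _ => ?_
      simp only [Pi.add_apply, Pi.smul_apply, smul_eq_mul]
      rw [map_mul, ← d3e_conj]
      unfold d3e
      ring
    rw [h1]
    refine Subalgebra.sum_mem _ fun γ _ => ?_
    exact Subalgebra.add_mem _ (Subalgebra.smul_mem _ (d3e_mem γ) _) (Subalgebra.smul_mem _ (d3e_mem (-γ)) _)
  · intro t x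
    have h1 : (x - (Q t).re) = ((x : ℂ) - Q t).re := by simp
    have h2 := abs_re_le_norm ((x : ℂ) - Q t)
    simp only
    rw [h1, ← sq_abs]
    exact pow_le_pow_left₀ (abs_nonneg _) h2 2

/-- polynomials of a real trigonometric polynomial have means -/
private theorem d3_poly {P : ℝ → ℝ} (hP : (fun t => (P t : ℂ)) ∈ d3A) (p : Polynomial ℝ) :
    ∃ l : ℝ, Tendsto (fun T : ℝ => (1 / T) * ∫ t in Ioc 0 T, p.eval (P t)) atTop (𝓝 l) := by
  have h1 : (fun t => ((p.eval (P t) : ℝ) : ℂ)) ∈ d3A := by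
    have h2 : (fun t => ((p.eval (P t) : ℝ) : ℂ)) =
        Polynomial.aeval (fun t => (P t : ℂ)) (p.map (algebraMap ℝ ℂ)) := by
      funext t
      have h3 : (Polynomial.aeval (fun t => (P t : ℂ)) (p.map (algebraMap ℝ ℂ)) : ℝ → ℂ) t =
          Polynomial.aeval ((P t : ℝ) : ℂ) (p.map (algebraMap ℝ ℂ)) := by
        exact (Polynomial.aeval_algHom_apply (Pi.evalAlgHom ℂ (fun _ : ℝ => ℂ) t)
          (fun t => (P t : ℂ)) (p.map (algebraMap ℝ ℂ))).symm
      rw [h3, Polynomial.aeval_def, Polynomial.eval₂_map]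
      simp only [Algebra.algebraMap_self, RingHom.id_comp]
      rw [show ((P t : ℝ) : ℂ) = algebraMap ℝ ℂ (P t) from rfl, Polynomial.eval₂_at_apply]
      rfl
    rw [h2]
    have h4 : Algebra.adjoin ℂ {(fun t => (P t : ℂ) : ℝ → ℂ)} ≤ d3A :=
      Algebra.adjoin_le (Set.singleton_subset_iff.mpr hP)
    exact h4 (Polynomial.aeval_mem_adjoin_singleton _ _)
  obtain ⟨hc, l, hl⟩ := hm_mem h1
  refine ⟨l.re, ?_⟩
  have h4 := (continuous_re.tendsto l).comp hl
  refine h4.congr fun T => ?_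
  simp only [Function.comp_apply]
  rw [integral_complex_ofReal, ← ofReal_mul, ofReal_re]

/-- limits of functions which are uniformly approximated by functions with a limit -/
private theorem d3_lim {F : ℝ → ℝ} (h : ∀ e : ℝ, 0 < e → ∃ (m : ℝ → ℝ) (l : ℝ), Tendsto m atTop (𝓝 l) ∧
    ∀ᶠ T in atTop, |F T - m T| ≤ e) : ∃ l : ℝ, Tendsto F atTop (𝓝 l) := by
  have hc : CauchySeq F := by
    rw [Metric.cauchySeq_iff']
    intro e he
    obtain ⟨m, l, hm, hF⟩ := h (e / 5) (by positivity)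
    have h1 : ∀ᶠ T in atTop, |m T - l| < e / 5 := by
      have := Metric.tendsto_nhds.mp hm (e / 5) (by positivity)
      simpa [Real.dist_eq] using this
    obtain ⟨N, hN⟩ := eventually_atTop.mp (hF.and h1)
    refine ⟨N, fun n hn => ?_⟩
    rw [Real.dist_eq]
    obtain ⟨a1, a2⟩ := hN n hn
    obtain ⟨b1, b2⟩ := hN N le_rfl
    rw [abs_le] at a1 b1
    rw [abs_lt] at a2 b2 ⊢
    constructor <;> linarith [a1.1, a1.2, a2.1, a2.2, b1.1, b1.2, b2.1, b2.2]
  exact cauchySeq_tendsto_of_complete hc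

theorem mean_of_ap {u : ℝ → ℝ} (hu : Measurable u)
    (hap : ∀ e : ℝ, 0 < e → ∃ (s : Finset ℝ) (c : ℝ → ℂ), ∀ᶠ T : ℝ in atTop,
      IntegrableOn (fun t => ‖(u t : ℂ) - ∑ γ ∈ s, c γ * cexp (((γ * t : ℝ) : ℂ) * I)‖ ^ 2) (Ioc 0 T) ∧
      (1 / T) * ∫ t in Ioc 0 T, ‖(u t : ℂ) - ∑ γ ∈ s, c γ * cexp (((γ * t : ℝ) : ℂ) * I)‖ ^ 2 ≤ e)
    (Φ : ℝ → ℝ) (hΦ : Continuous Φ) (M : ℝ) (hM : ∀ x, |Φ x| ≤ M) :
    ∃ l : ℝ, Tendsto (fun T : ℝ => (1 / T) * ∫ t in Ioc 0 T, Φ (u t)) atTop (𝓝 l) := by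
  have hM0 : 0 ≤ M := (abs_nonneg _).trans (hM 0)
  -- real form of the hypothesis
  have hap' : ∀ e : ℝ, 0 < e → ∃ P : ℝ → ℝ, Continuous P ∧ (∃ M : ℝ, 0 ≤ M ∧ ∀ t, |P t| ≤ M) ∧
      (fun t => (P t : ℂ)) ∈ d3A ∧ ∀ᶠ T : ℝ in atTop, IntegrableOn (fun t => (u t - P t) ^ 2) (Ioc 0 T) ∧
      (1 / T) * ∫ t in Ioc 0 T, (u t - P t) ^ 2 ≤ e := by
    intro e he
    obtain ⟨s, c, hsc⟩ := hap e he
    obtain ⟨P, hPc, hPb, hPA, hPle⟩ := d3_real s c
    refine ⟨P, hPc, hPb, hPA, ?_⟩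
    filter_upwards [hsc, eventually_gt_atTop 0] with T hT hT0
    have h1 : IntegrableOn (fun t => (u t - P t) ^ 2) (Ioc 0 T) := by
      refine Integrable.mono' hT.1 ((hu.sub hPc.measurable).pow_const 2).aestronglyMeasurable ?_
      refine Eventually.of_forall fun t => ?_
      rw [Real.norm_eq_abs, abs_of_nonneg (sq_nonneg _)]
      exact hPle t (u t)
    refine ⟨h1, le_trans ?_ hT.2⟩
    apply mul_le_mul_of_nonneg_left _ (by positivity)
    exact setIntegral_mono h1 hT.1 fun t => hPle t (u t)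
  -- the second moment of `u`
  obtain ⟨K, hK0, hK⟩ : ∃ K : ℝ, 0 ≤ K ∧ ∀ᶠ T : ℝ in atTop, IntegrableOn (fun t => u t ^ 2) (Ioc 0 T) ∧
      (1 / T) * ∫ t in Ioc 0 T, u t ^ 2 ≤ K := by
    obtain ⟨P, hPc, ⟨M1, hM10, hM1⟩, -, hP⟩ := hap' 1 one_pos
    refine ⟨2 + 2 * M1 ^ 2, by positivity, ?_⟩
    filter_upwards [hP, eventually_gt_atTop 0] with T hT hT0
    have hb : ∀ t, u t ^ 2 ≤ 2 * (u t - P t) ^ 2 + 2 * M1 ^ 2 := by
      intro t
      have h1 : P t ^ 2 ≤ M1 ^ 2 := by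
        rw [← sq_abs]
        exact pow_le_pow_left₀ (abs_nonneg _) (hM1 t) 2
      nlinarith [sq_nonneg (u t - 2 * P t)]
    have hci : IntegrableOn (fun _ : ℝ => 2 * M1 ^ 2) (Ioc 0 T) := integrableOn_const measure_Ioc_lt_top.ne
    have h2 : IntegrableOn (fun t => 2 * (u t - P t) ^ 2 + 2 * M1 ^ 2) (Ioc 0 T) :=
      (hT.1.const_mul 2).add hci
    have h3 : IntegrableOn (fun t => u t ^ 2) (Ioc 0 T) := by
      refine Integrable.mono' h2 (hu.pow_const 2).aestronglyMeasurable ?_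
      refine Eventually.of_forall fun t => ?_
      rw [Real.norm_eq_abs, abs_of_nonneg (sq_nonneg _)]
      exact hb t
    refine ⟨h3, ?_⟩
    have h4 : ∫ t in Ioc 0 T, u t ^ 2 ≤ 2 * (∫ t in Ioc 0 T, (u t - P t) ^ 2) + T * (2 * M1 ^ 2) := by
      refine (setIntegral_mono h3 h2 hb).trans (le_of_eq ?_)
      rw [integral_add (hT.1.const_mul 2) hci, integral_const_mul, setIntegral_const, measureReal_def,
        Real.volume_Ioc, sub_zero, ENNReal.toReal_ofReal hT0.le, smul_eq_mul]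
    have h5 := mul_le_mul_of_nonneg_left h4 (by positivity : 0 ≤ 1 / T)
    have h6 : 1 / T * (2 * (∫ t in Ioc 0 T, (u t - P t) ^ 2) + T * (2 * M1 ^ 2)) =
        2 * (1 / T * ∫ t in Ioc 0 T, (u t - P t) ^ 2) + 2 * M1 ^ 2 := by
      field_simp
    rw [h6] at h5
    linarith [hT.2]
  refine d3_lim fun e he => ?_
  -- the comparison inequality
  obtain ⟨R, hR0, hR⟩ : ∃ R : ℝ, 0 < R ∧ 2 * M / R ^ 2 * K ≤ e / 4 := by
    refine ⟨Real.sqrt (8 * M * K / e + 1), by positivity, ?_⟩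
    rw [Real.sq_sqrt (by positivity), div_mul_eq_mul_div, div_le_div_iff₀ (by positivity) (by norm_num)]
    have h1 : e * (8 * M * K / e + 1) = 8 * M * K + e := by
      field_simp
    rw [h1]
    linarith
  obtain ⟨δ, hδ0, hδ⟩ : ∃ δ : ℝ, 0 < δ ∧ ∀ x y : ℝ, |y| ≤ R → |x - y| ≤ δ → |Φ x - Φ y| ≤ e / 4 := by
    have huc : UniformContinuousOn Φ (Icc (-(R + 1)) (R + 1)) :=
      isCompact_Icc.uniformContinuousOn_of_continuous hΦ.continuousOn
    obtain ⟨δ, hδ, h⟩ := Metric.uniformContinuousOn_iff.mp huc (e / 4) (by positivity)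
    refine ⟨min (δ / 2) 1, by positivity, fun x y hy hxy => ?_⟩
    have h1 : |x - y| ≤ 1 := hxy.trans (min_le_right _ _)
    have h2 : |x - y| < δ := (hxy.trans (min_le_left _ _)).trans_lt (by linarith)
    rw [abs_le] at hy h1
    have h3 := h x ⟨by linarith [hy.1, h1.1], by linarith [hy.2, h1.2]⟩ y
      ⟨by linarith [hy.1], by linarith [hy.2]⟩ (by rw [Real.dist_eq]; exact h2)
    rw [Real.dist_eq] at h3
    exact h3.le
  have hcmp : ∀ x y : ℝ, |Φ x - Φ y| ≤ e / 4 + 2 * M / R ^ 2 * y ^ 2 + 2 * M / δ ^ 2 * (x - y) ^ 2 := by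
    intro x y
    have h0 : |Φ x - Φ y| ≤ 2 * M := by
      have := abs_sub (Φ x) (Φ y)
      linarith [hM x, hM y]
    have n1 : 0 ≤ 2 * M / R ^ 2 * y ^ 2 := by positivity
    have n2 : 0 ≤ 2 * M / δ ^ 2 * (x - y) ^ 2 := by positivity
    by_cases h1 : |y| ≤ R
    · by_cases h2 : |x - y| ≤ δ
      · linarith [hδ x y h1 h2]
      · push Not at h2
        have h3 : 2 * M ≤ 2 * M / δ ^ 2 * (x - y) ^ 2 := by
          rw [div_mul_eq_mul_div, le_div_iff₀ (by positivity)]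
          apply mul_le_mul_of_nonneg_left _ (by positivity)
          rw [← sq_abs (x - y)]
          exact pow_le_pow_left₀ hδ0.le h2.le 2
        linarith
    · push Not at h1
      have h3 : 2 * M ≤ 2 * M / R ^ 2 * y ^ 2 := by
        rw [div_mul_eq_mul_div, le_div_iff₀ (by positivity)]
        apply mul_le_mul_of_nonneg_left _ (by positivity)
        rw [← sq_abs y]
        exact pow_le_pow_left₀ hR0.le h1.le 2
      linarith
  obtain ⟨P, hPc, ⟨M1, hM10, hM1⟩, hPA, hP⟩ := hap' (e / 4 / (2 * M / δ ^ 2 + 1)) (by positivity)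
  obtain ⟨p, hp⟩ := exists_polynomial_near_of_continuousOn (-M1) M1 Φ hΦ.continuousOn (e / 4) (by positivity)
  obtain ⟨l, hl⟩ := d3_poly hPA p
  refine ⟨_, l, hl, ?_⟩
  filter_upwards [hK, hP, eventually_gt_atTop 0] with T hT1 hT2 hT0
  have hΦu : IntegrableOn (fun t => Φ (u t)) (Ioc 0 T) := by
    refine Measure.integrableOn_of_bounded measure_Ioc_lt_top.ne (hΦ.measurable.comp hu).aestronglyMeasurable
      (M := M) ?_
    exact Eventually.of_forall fun t => by rw [Real.norm_eq_abs]; exact hM _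
  have hpP : IntegrableOn (fun t => p.eval (P t)) (Ioc 0 T) :=
    (((p.continuous.comp hPc).continuousOn (s := Icc 0 T)).integrableOn_compact isCompact_Icc).mono_set
      Ioc_subset_Icc_self
  have hpt : ∀ t, |Φ (u t) - p.eval (P t)| ≤
      e / 2 + 2 * M / R ^ 2 * u t ^ 2 + 2 * M / δ ^ 2 * (u t - P t) ^ 2 := by
    intro t
    have h1 := hcmp (P t) (u t)
    have h2 := hp (P t) (abs_le.mp (hM1 t))
    have h3 : (P t - u t) ^ 2 = (u t - P t) ^ 2 := by ring
    rw [h3] at h1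
    have h4 : |Φ (u t) - p.eval (P t)| ≤ |Φ (P t) - Φ (u t)| + |p.eval (P t) - Φ (P t)| := by
      have h5 : Φ (u t) - p.eval (P t) = -((Φ (P t) - Φ (u t)) + (p.eval (P t) - Φ (P t))) := by ring
      rw [h5, abs_neg]
      exact abs_add_le _ _
    linarith
  have hci : IntegrableOn (fun _ : ℝ => e / 2) (Ioc 0 T) := integrableOn_const measure_Ioc_lt_top.ne
  have hB : IntegrableOn (fun t => 2 * M / R ^ 2 * u t ^ 2) (Ioc 0 T) := hT1.1.const_mul _
  have hC : IntegrableOn (fun t => 2 * M / δ ^ 2 * (u t - P t) ^ 2) (Ioc 0 T) := hT2.1.const_mul _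
  have hA : IntegrableOn (fun t => e / 2 + 2 * M / R ^ 2 * u t ^ 2) (Ioc 0 T) := hci.add hB
  have hI : IntegrableOn (fun t => e / 2 + 2 * M / R ^ 2 * u t ^ 2 + 2 * M / δ ^ 2 * (u t - P t) ^ 2) (Ioc 0 T) :=
    hA.add hC
  rw [← mul_sub, ← integral_sub hΦu hpP, abs_mul, abs_of_pos (by positivity : 0 < 1 / T)]
  have h1 : |∫ t in Ioc 0 T, (Φ (u t) - p.eval (P t))| ≤
      ∫ t in Ioc 0 T, (e / 2 + 2 * M / R ^ 2 * u t ^ 2 + 2 * M / δ ^ 2 * (u t - P t) ^ 2) := by
    have h2 := norm_integral_le_of_norm_le (μ := volume.restrict (Ioc 0 T)) hI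
      (Eventually.of_forall fun t => by rw [Real.norm_eq_abs]; exact hpt t)
    rwa [Real.norm_eq_abs] at h2
  have h2 : ∫ t in Ioc 0 T, (e / 2 + 2 * M / R ^ 2 * u t ^ 2 + 2 * M / δ ^ 2 * (u t - P t) ^ 2) =
      T * (e / 2) + 2 * M / R ^ 2 * (∫ t in Ioc 0 T, u t ^ 2) +
        2 * M / δ ^ 2 * ∫ t in Ioc 0 T, (u t - P t) ^ 2 := by
    rw [integral_add hA hC, integral_add hci hB, integral_const_mul, integral_const_mul, setIntegral_const, measureReal_def, Real.volume_Ioc, sub_zero,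
      ENNReal.toReal_ofReal hT0.le, smul_eq_mul]
  rw [h2] at h1
  have h3 := mul_le_mul_of_nonneg_left h1 (by positivity : 0 ≤ 1 / T)
  have h4 : 1 / T * (T * (e / 2) + 2 * M / R ^ 2 * (∫ t in Ioc 0 T, u t ^ 2) +
        2 * M / δ ^ 2 * ∫ t in Ioc 0 T, (u t - P t) ^ 2) =
      e / 2 + 2 * M / R ^ 2 * (1 / T * ∫ t in Ioc 0 T, u t ^ 2) +
        2 * M / δ ^ 2 * (1 / T * ∫ t in Ioc 0 T, (u t - P t) ^ 2) := by
    field_simp
  rw [h4] at h3
  have h5 : 2 * M / R ^ 2 * (1 / T * ∫ t in Ioc 0 T, u t ^ 2) ≤ 2 * M / R ^ 2 * K :=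
    mul_le_mul_of_nonneg_left hT1.2 (by positivity)
  have h6 : 2 * M / δ ^ 2 * (1 / T * ∫ t in Ioc 0 T, (u t - P t) ^ 2) ≤
      2 * M / δ ^ 2 * (e / 4 / (2 * M / δ ^ 2 + 1)) :=
    mul_le_mul_of_nonneg_left hT2.2 (by positivity)
  have h7 : 2 * M / δ ^ 2 * (e / 4 / (2 * M / δ ^ 2 + 1)) ≤ e / 4 := by
    set X : ℝ := 2 * M / δ ^ 2 with hX
    have hX0 : 0 ≤ X := by positivity
    rw [mul_div_assoc', div_le_iff₀ (by positivity)]
    nlinarith
  linarith

end Pool.Agent.Helper16.CR
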