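import Mathlib

/-!
# CR, D8: a mean square almost periodic function without the frequency `0` has mean `0`
-/

set_option autoImplicit false

namespace Pool.Agent.Helper16.CR

open Complex Filter Topology MeasureTheory Set

private theorem d8_cont (γ : ℝ) : Continuous (fun t : ℝ => Complex.exp (((γ * t : ℝ) : ℂ) * Complex.I)) := by
  fun_prop

private theorem d8_int {f : ℝ → ℂ} (hf : Continuous f) (T : ℝ) : IntegrableOn f (Ioc 0 T) :=
  (hf.continuousOn.integrableOn_compact isCompact_Icc).mono_set Ioc_subset_Icc_self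

private theorem d8_exp {γ : ℝ} (hγ : γ ≠ 0) : Tendsto (fun T : ℝ => ((1 / T : ℝ) : ℂ) *
    ∫ t in Ioc 0 T, Complex.exp (((γ * t : ℝ) : ℂ) * Complex.I)) atTop (𝓝 0) := by
  have hc : (γ : ℂ) * I ≠ 0 := mul_ne_zero (by exact_mod_cast hγ) I_ne_zero
  rw [tendsto_zero_iff_norm_tendsto_zero]
  have h1 : Tendsto (fun T : ℝ => (1 / T) * (2 / |γ|)) atTop (𝓝 0) := by
    have h2 : Tendsto (fun T : ℝ => 1 / T) atTop (𝓝 0) := by
      simpa using tendsto_inv_atTop_zero (𝕜 := ℝ)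
    simpa using h2.mul_const (2 / |γ|)
  refine squeeze_zero' (Eventually.of_forall fun T => norm_nonneg _) ?_ h1
  filter_upwards [eventually_gt_atTop 0] with T hT
  rw [norm_mul, Complex.norm_real, Real.norm_eq_abs, abs_of_pos (by positivity : 0 < 1 / T)]
  apply mul_le_mul_of_nonneg_left _ (by positivity)
  rw [← intervalIntegral.integral_of_le hT.le]
  have h3 : ∀ t : ℝ, Complex.exp (((γ * t : ℝ) : ℂ) * Complex.I) = cexp ((γ : ℂ) * I * t) := by
    intro t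
    congr 1
    push_cast
    ring
  simp only [h3]
  rw [integral_exp_mul_complex hc, norm_div, norm_mul, Complex.norm_I, mul_one, Complex.norm_real,
    Real.norm_eq_abs]
  apply div_le_div_of_nonneg_right _ (abs_nonneg _)
  refine (norm_sub_le _ _).trans ?_
  rw [← h3, ← h3, Complex.norm_exp_ofReal_mul_I, Complex.norm_exp_ofReal_mul_I]
  norm_num

theorem mean_zero_of_ap {u : ℝ → ℝ} (hu : Measurable u)
    (hap : ∀ ε : ℝ, 0 < ε → ∃ (s : Finset ℝ) (c : ℝ → ℂ), c 0 = 0 ∧ ∀ᶠ T : ℝ in atTop,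
      IntegrableOn (fun t => ‖(u t : ℂ) - ∑ γ ∈ s, c γ * Complex.exp (((γ * t : ℝ) : ℂ) * Complex.I)‖ ^ 2)
        (Ioc 0 T) ∧
      (1 / T) * ∫ t in Ioc 0 T, ‖(u t : ℂ) - ∑ γ ∈ s, c γ * Complex.exp (((γ * t : ℝ) : ℂ) * Complex.I)‖ ^ 2
        ≤ ε) :
    Tendsto (fun T : ℝ => (1 / T) * ∫ t in Ioc 0 T, u t) atTop (𝓝 0) := by
  rw [Metric.tendsto_nhds]
  intro e he
  set δ : ℝ := e / 6 with hδ
  have hδ0 : 0 < δ := by positivity
  obtain ⟨s, c, hc0, hsc⟩ := hap (4 * δ ^ 2) (by positivity)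
  set P : ℝ → ℂ := fun t => ∑ γ ∈ s, c γ * Complex.exp (((γ * t : ℝ) : ℂ) * Complex.I) with hP
  have hPc : Continuous P := by
    rw [hP]
    fun_prop
  -- the mean of `P` tends to `0`
  have hPm : Tendsto (fun T : ℝ => ((1 / T : ℝ) : ℂ) * ∫ t in Ioc 0 T, P t) atTop (𝓝 0) := by
    have h1 : Tendsto (fun T : ℝ => ∑ γ ∈ s, c γ * (((1 / T : ℝ) : ℂ) *
        ∫ t in Ioc 0 T, Complex.exp (((γ * t : ℝ) : ℂ) * Complex.I))) atTop (𝓝 (∑ γ ∈ s, 0)) := by
      refine tendsto_finset_sum _ fun γ _ => ?_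
      by_cases hγ : γ = 0
      · subst hγ
        simp [hc0]
      · simpa using (d8_exp hγ).const_mul (c γ)
    rw [Finset.sum_const_zero] at h1
    refine h1.congr fun T => ?_
    have h2 : ∫ t in Ioc 0 T, P t =
        ∑ γ ∈ s, c γ * ∫ t in Ioc 0 T, Complex.exp (((γ * t : ℝ) : ℂ) * Complex.I) := by
      rw [hP]
      simp only
      rw [integral_finsetSum _ fun γ _ => (d8_int (d8_cont γ) T).const_mul (c γ)]
      exact Finset.sum_congr rfl fun γ _ => integral_const_mul _ _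
    rw [h2, Finset.mul_sum]
    exact Finset.sum_congr rfl fun γ _ => by ring
  have hPe : ∀ᶠ T : ℝ in atTop, ‖((1 / T : ℝ) : ℂ) * ∫ t in Ioc 0 T, P t‖ < δ := by
    have := Metric.tendsto_nhds.mp hPm δ hδ0
    simpa [dist_eq_norm] using this
  filter_upwards [hsc, hPe, eventually_gt_atTop 0] with T hT hT2 hT0
  obtain ⟨hi, hm⟩ := hT
  have hum : Measurable (fun t => (u t : ℂ) - P t) := (measurable_ofReal.comp hu).sub hPc.measurable
  have hci : IntegrableOn (fun _ : ℝ => δ) (Ioc 0 T) := integrableOn_const measure_Ioc_lt_top.ne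
  have hpt : ∀ t, ‖(u t : ℂ) - P t‖ ≤ δ + 1 / (4 * δ) * ‖(u t : ℂ) - P t‖ ^ 2 := by
    intro t
    set x : ℝ := ‖(u t : ℂ) - P t‖ with hx
    have h1 : δ + 1 / (4 * δ) * x ^ 2 - x = 1 / (4 * δ) * (x - 2 * δ) ^ 2 := by
      field_simp
      ring
    have h2 : 0 ≤ 1 / (4 * δ) * (x - 2 * δ) ^ 2 := by positivity
    linarith
  have hI : IntegrableOn (fun t => δ + 1 / (4 * δ) * ‖(u t : ℂ) - P t‖ ^ 2) (Ioc 0 T) := hci.add (hi.const_mul _)
  have hd : IntegrableOn (fun t => (u t : ℂ) - P t) (Ioc 0 T) :=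
    Integrable.mono' hI hum.aestronglyMeasurable (Eventually.of_forall hpt)
  have huI : IntegrableOn (fun t => (u t : ℂ)) (Ioc 0 T) := by
    have h1 : IntegrableOn (fun t => ((u t : ℂ) - P t) + P t) (Ioc 0 T) := hd.add (d8_int hPc T)
    simpa using h1
  have h1 : (((1 / T) * ∫ t in Ioc 0 T, u t : ℝ) : ℂ) =
      ((1 / T : ℝ) : ℂ) * (∫ t in Ioc 0 T, ((u t : ℂ) - P t)) + ((1 / T : ℝ) : ℂ) * ∫ t in Ioc 0 T, P t := by
    rw [integral_sub huI (d8_int hPc T), ofReal_mul, ← integral_complex_ofReal]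
    ring
  have h2 : ‖((1 / T : ℝ) : ℂ) * (∫ t in Ioc 0 T, ((u t : ℂ) - P t))‖ ≤ 2 * δ := by
    rw [norm_mul, Complex.norm_real, Real.norm_eq_abs, abs_of_pos (by positivity : 0 < 1 / T)]
    have h3 : ‖∫ t in Ioc 0 T, ((u t : ℂ) - P t)‖ ≤
        ∫ t in Ioc 0 T, (δ + 1 / (4 * δ) * ‖(u t : ℂ) - P t‖ ^ 2) :=
      norm_integral_le_of_norm_le hI (Eventually.of_forall hpt)
    have h4 : ∫ t in Ioc 0 T, (δ + 1 / (4 * δ) * ‖(u t : ℂ) - P t‖ ^ 2) =
        T * δ + 1 / (4 * δ) * ∫ t in Ioc 0 T, ‖(u t : ℂ) - P t‖ ^ 2 := by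
      rw [integral_add hci (hi.const_mul _), integral_const_mul, setIntegral_const, measureReal_def,
        Real.volume_Ioc, sub_zero, ENNReal.toReal_ofReal hT0.le, smul_eq_mul]
    rw [h4] at h3
    calc 1 / T * ‖∫ t in Ioc 0 T, ((u t : ℂ) - P t)‖
        ≤ 1 / T * (T * δ + 1 / (4 * δ) * ∫ t in Ioc 0 T, ‖(u t : ℂ) - P t‖ ^ 2) :=
          mul_le_mul_of_nonneg_left h3 (by positivity)
      _ = δ + 1 / (4 * δ) * (1 / T * ∫ t in Ioc 0 T, ‖(u t : ℂ) - P t‖ ^ 2) := by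
          field_simp
      _ ≤ δ + 1 / (4 * δ) * (4 * δ ^ 2) := by
          have := mul_le_mul_of_nonneg_left hm (by positivity : 0 ≤ 1 / (4 * δ))
          linarith
      _ = 2 * δ := by
          field_simp
          ring
  rw [Real.dist_eq, sub_zero, ← Real.norm_eq_abs, ← Complex.norm_real, h1]
  refine (norm_add_le _ _).trans_lt ?_
  have h5 : 6 * δ = e := by rw [hδ]; ring
  linarith

end Pool.Agent.Helper16.CR
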