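import Pool.Agent.Helper29.MS.H2

/-!
# CR, leaf K3: the tail of the mean square of `V'`, uniformly in `σ`

`V' = (- w L' + (L + κ)) / w²`; the half lines `|τ| > R` are covered by windows of length `2 δ`, on which C3 (`growth_L2_deriv`) and
`growth_L2` apply; the sum over the windows converges.
-/

set_option autoImplicit false

namespace Pool.Agent.Helper16.CR

open Complex Filter Topology MeasureTheory Set Metric
open Pool.Agent.Helper13.Bsd Pool.Agent.Helper7.GW Pool.Agent.Helper58.BSD Pool.Agent.Helper29.MS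

variable {v : ℝ → ℝ} {G : ℂ → ℂ} {A a η B c : ℝ} {k : ℕ}

private theorem k3_log (D x : ℝ) (hD : 1 ≤ D) (hx : 0 ≤ x) (y : ℝ) (hy0 : 1 ≤ y) (hy : y ≤ D * (1 + x)) :
    Real.log y ≤ 4 * D * (1 + x) ^ (1 / 4 : ℝ) := by
  have h1 := Real.log_le_rpow_div (x := y) (by linarith) (show (0 : ℝ) < 1 / 4 by norm_num)
  have h2 : y ^ (1 / 4 : ℝ) ≤ (D * (1 + x)) ^ (1 / 4 : ℝ) :=
    Real.rpow_le_rpow (by linarith) hy (by norm_num)
  rw [Real.mul_rpow (by linarith) (by linarith)] at h2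
  have h3 : D ^ (1 / 4 : ℝ) ≤ D := by
    calc D ^ (1 / 4 : ℝ) ≤ D ^ (1 : ℝ) := Real.rpow_le_rpow_of_exponent_le hD (by norm_num)
      _ = D := Real.rpow_one D
  have h4 : 0 ≤ (1 + x) ^ (1 / 4 : ℝ) := Real.rpow_nonneg (by linarith) _
  have h5 : D ^ (1 / 4 : ℝ) * (1 + x) ^ (1 / 4 : ℝ) ≤ D * (1 + x) ^ (1 / 4 : ℝ) :=
    mul_le_mul_of_nonneg_right h3 h4
  calc Real.log y ≤ y ^ (1 / 4 : ℝ) / (1 / 4) := h1
    _ = 4 * y ^ (1 / 4 : ℝ) := by ring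
    _ ≤ 4 * (D * (1 + x) ^ (1 / 4 : ℝ)) := by linarith
    _ = 4 * D * (1 + x) ^ (1 / 4 : ℝ) := by ring

private theorem k3_summable : Summable (fun m : ℤ => (1 + |(m : ℝ)|) ^ (-(3 / 2) : ℝ)) := by
  have h : Summable (fun n : ℕ => (1 + |(n : ℝ)|) ^ (-(3 / 2) : ℝ)) := by
    have h1 : Summable (fun n : ℕ => (n : ℝ) ^ (-(3 / 2) : ℝ)) :=
      Real.summable_nat_rpow.2 (by norm_num)
    have h2 := (summable_nat_add_iff 1).2 h1
    refine h2.congr fun n => ?_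
    rw [abs_of_nonneg (Nat.cast_nonneg n)]
    push_cast
    rw [add_comm]
  refine Summable.of_nat_of_neg ?_ ?_
  · simpa using h
  · simpa using h

private theorem k3_open : IsOpen {w : ℂ | 0 < w.re} := isOpen_lt continuous_const continuous_re

private theorem k3_comp {f : ℂ → ℂ} (hf : DifferentiableOn ℂ f {w : ℂ | 0 < w.re}) {σ : ℝ} (hσ : 0 < σ) :
    Continuous (fun τ : ℝ => f ((σ : ℂ) + (τ : ℂ) * I)) := by
  have hl : Continuous (fun τ : ℝ => (σ : ℂ) + (τ : ℂ) * I) := by fun_prop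
  refine continuous_iff_continuousAt.2 fun τ => ?_
  have h1 : ContinuousAt f ((σ : ℂ) + (τ : ℂ) * I) := by
    refine (hf.differentiableAt (k3_open.mem_nhds ?_)).continuousAt
    show 0 < ((σ : ℂ) + (τ : ℂ) * I).re
    simpa using hσ
  exact ContinuousAt.comp (f := fun τ : ℝ => (σ : ℂ) + (τ : ℂ) * I) (g := f) h1 hl.continuousAt

private theorem k3_diffVV {L : ℂ → ℂ} (hL : DifferentiableOn ℂ L {w : ℂ | 0 < w.re}) (κ : ℝ) :
    DifferentiableOn ℂ (VV L κ) {w : ℂ | 0 < w.re} := by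
  have hne : ∀ w ∈ {w : ℂ | 0 < w.re}, w ≠ 0 := by
    intro w hw h
    rw [h] at hw
    simp at hw
  have h1 : DifferentiableOn ℂ (fun w => -(L w + (κ : ℂ)) / w) {w : ℂ | 0 < w.re} :=
    ((hL.add_const _).neg).div differentiableOn_id hne
  exact h1

/-- pointwise bound away from `0` -/
private theorem k3_pt {L : ℂ → ℂ} (hL : DifferentiableOn ℂ L {w : ℂ | 0 < w.re}) (κ σ τ q : ℝ) (hσ : 0 < σ)
    (hq : 0 < q) (hqt : q ≤ |τ|) :
    ‖deriv (VV L κ) ((σ : ℂ) + (τ : ℂ) * I)‖ ^ 2 ≤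
      2 / q ^ 2 * ‖deriv L ((σ : ℂ) + (τ : ℂ) * I)‖ ^ 2 +
        4 / q ^ 4 * (‖L ((σ : ℂ) + (τ : ℂ) * I)‖ ^ 2 + κ ^ 2) := by
  set w : ℂ := (σ : ℂ) + (τ : ℂ) * I with hw
  have hre : w.re = σ := by simp [hw]
  have him : w.im = τ := by simp [hw]
  have hwm : w ∈ {w : ℂ | 0 < w.re} := by
    show 0 < w.re
    rw [hre]
    exact hσ
  have hw0 : w ≠ 0 := by
    intro h
    rw [h] at hre
    simp at hre
    linarith
  have h1 : q ≤ ‖w‖ := by
    have := Complex.abs_im_le_norm w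
    rw [him] at this
    linarith
  have hd : HasDerivAt (VV L κ) ((-(deriv L w) * w - (-(L w + (κ : ℂ))) * 1) / w ^ 2) w := by
    have e1 : HasDerivAt L (deriv L w) w := (hL.differentiableAt (k3_open.mem_nhds hwm)).hasDerivAt
    exact ((e1.add_const (κ : ℂ)).neg).div (hasDerivAt_id w) hw0
  rw [hd.deriv]
  have h2 : (-(deriv L w) * w - (-(L w + (κ : ℂ))) * 1) / w ^ 2 = -(deriv L w) / w + (L w + (κ : ℂ)) / w ^ 2 := by
    field_simp
    ring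
  rw [h2]
  have h3 : ‖-(deriv L w) / w + (L w + (κ : ℂ)) / w ^ 2‖ ≤ ‖deriv L w‖ / q + ‖L w + (κ : ℂ)‖ / q ^ 2 := by
    refine (norm_add_le _ _).trans (add_le_add ?_ ?_)
    · rw [norm_div, norm_neg]
      exact div_le_div_of_nonneg_left (norm_nonneg _) hq h1
    · rw [norm_div, norm_pow]
      exact div_le_div_of_nonneg_left (norm_nonneg _) (by positivity) (by gcongr)
  have h4 : ‖L w + (κ : ℂ)‖ ^ 2 ≤ 2 * (‖L w‖ ^ 2 + κ ^ 2) := by
    have e1 := norm_add_le (L w) (κ : ℂ)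
    rw [Complex.norm_real, Real.norm_eq_abs] at e1
    have e2 : ‖L w + (κ : ℂ)‖ ^ 2 ≤ (‖L w‖ + |κ|) ^ 2 := by gcongr
    nlinarith [sq_nonneg (‖L w‖ - |κ|), sq_abs κ]
  calc ‖-(deriv L w) / w + (L w + (κ : ℂ)) / w ^ 2‖ ^ 2
      ≤ (‖deriv L w‖ / q + ‖L w + (κ : ℂ)‖ / q ^ 2) ^ 2 := by gcongr
    _ ≤ 2 * (‖deriv L w‖ / q) ^ 2 + 2 * (‖L w + (κ : ℂ)‖ / q ^ 2) ^ 2 := by
        nlinarith [sq_nonneg (‖deriv L w‖ / q - ‖L w + (κ : ℂ)‖ / q ^ 2)]
    _ = 2 / q ^ 2 * ‖deriv L w‖ ^ 2 + 2 / q ^ 4 * ‖L w + (κ : ℂ)‖ ^ 2 := by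
        rw [div_pow, div_pow, ← pow_mul]
        ring
    _ ≤ 2 / q ^ 2 * ‖deriv L w‖ ^ 2 + 2 / q ^ 4 * (2 * (‖L w‖ ^ 2 + κ ^ 2)) := by gcongr
    _ = _ := by ring

/-- K3 from C3 (`growth_L2_deriv`) as a hypothesis -/
theorem h2_tail_core (hF : Frame v G A a η B c k) {L : ℂ → ℂ} (hL : Branch v G a L)
    (hC3 : ∃ δ C : ℝ, 0 < δ ∧ 0 ≤ C ∧ ∀ σ τ0 : ℝ, 0 < σ → σ ≤ 1 →
      ∫ τ in Icc (τ0 - δ) (τ0 + δ), ‖deriv L ((σ : ℂ) + (τ : ℂ) * I)‖ ^ 2 ≤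
        C * Real.log (2 + |τ0|) ^ 2 / σ) (e : ℝ) (he : 0 < e) :
    ∃ R : ℝ, 0 < R ∧ ∀ σ : ℝ, 0 < σ → σ ≤ 1 →
      ∫ τ in {τ : ℝ | R < |τ|}, ‖deriv (VV L (kap G)) ((σ : ℂ) + (τ : ℂ) * I)‖ ^ 2 ≤ e / σ := by
  obtain ⟨δa, C, hδa, hC, hL3⟩ := hC3
  obtain ⟨δb, C2, hδb, hC2, hL2⟩ := growth_L2 hF hL
  set δ1 : ℝ := min δa δb with hδ1
  have hδ1p : 0 < δ1 := lt_min hδa hδb
  have h1a : δ1 ≤ δa := min_le_left _ _
  have h1b : δ1 ≤ δb := min_le_right _ _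
  set c2 : ℝ := δ1 / 2 with hc2
  have hc2p : 0 < c2 := by positivity
  set κ : ℝ := kap G with hκ
  set D : ℝ := 2 + 2 * δ1 with hD
  set C3 : ℝ := 2 / c2 ^ 2 * (16 * D ^ 2 * C) + 4 / c2 ^ 4 * (16 * D ^ 2 * C2 + 2 * δ1 * κ ^ 2) with hC3
  have hC3p : 0 ≤ C3 := by positivity
  set b : ℤ → ℝ := fun m => C3 * (1 + |(m : ℝ)|) ^ (-(3 / 2) : ℝ) with hb
  have hb0 : ∀ m, 0 ≤ b m := fun m => by
    have : 0 ≤ |(m : ℝ)| := abs_nonneg _
    positivity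
  have hbs : Summable b := k3_summable.mul_left C3
  -- the tail of the sum
  have htail : ∃ N : ℕ, ∑' m : {x : ℤ // x ∉ Finset.Icc (-(N : ℤ)) N}, b m ≤ e := by
    have h1 := tendsto_tsum_compl_atTop_zero b
    obtain ⟨s0, hs0⟩ := Filter.eventually_atTop.mp (h1.eventually (ge_mem_nhds he))
    obtain ⟨N, hN⟩ : ∃ N : ℕ, s0 ⊆ Finset.Icc (-(N : ℤ)) N := by
      refine ⟨s0.sup Int.natAbs, fun x hx => ?_⟩
      have h2 : x.natAbs ≤ s0.sup Int.natAbs := Finset.le_sup (f := Int.natAbs) hx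
      rw [Finset.mem_Icc]
      constructor <;> omega
    exact ⟨N, hs0 _ hN⟩
  obtain ⟨N, hN⟩ := htail
  refine ⟨2 * δ1 * (N + 1), by positivity, fun σ hσ hσ1 => ?_⟩
  have hLd := hL.diff
  have hcL : Continuous (fun τ : ℝ => ‖L ((σ : ℂ) + (τ : ℂ) * I)‖ ^ 2) := ((k3_comp hLd hσ).norm).pow 2
  have hcL' : Continuous (fun τ : ℝ => ‖deriv L ((σ : ℂ) + (τ : ℂ) * I)‖ ^ 2) :=
    ((k3_comp (hLd.deriv k3_open) hσ).norm).pow 2
  have hcV : Continuous (fun τ : ℝ => ‖deriv (VV L κ) ((σ : ℂ) + (τ : ℂ) * I)‖ ^ 2) :=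
    ((k3_comp ((k3_diffVV hLd κ).deriv k3_open) hσ).norm).pow 2
  set f : ℝ → ℝ := fun τ => ‖deriv (VV L κ) ((σ : ℂ) + (τ : ℂ) * I)‖ ^ 2 with hf
  have hf0 : ∀ τ, 0 ≤ f τ := fun τ => by positivity
  set J : ℤ → Set ℝ := fun m => Icc (2 * δ1 * m - δ1) (2 * δ1 * m + δ1) with hJ
  set s : Finset ℤ := Finset.Icc (-(N : ℤ)) N with hs
  have hσi : 1 ≤ 1 / σ := by
    rw [le_div_iff₀ hσ]
    linarith
  have hJb : ∀ m : ℤ, m ∉ s → ∫⁻ τ in J m, ENNReal.ofReal (f τ) ≤ ENNReal.ofReal (b m / σ) := by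
    intro m hms
    have hM : 0 ≤ |(m : ℝ)| := abs_nonneg _
    set M : ℝ := |(m : ℝ)| with hMdef
    have hm0 : m ≠ 0 := by
      rintro rfl
      apply hms
      rw [hs, Finset.mem_Icc]
      constructor <;> omega
    have hM1 : 1 ≤ M := by
      rw [hMdef, ← Int.cast_abs]
      exact_mod_cast Int.one_le_abs hm0
    set q : ℝ := c2 * (1 + M) with hq
    have hqp : 0 < q := by positivity
    have hqt : ∀ τ ∈ J m, q ≤ |τ| := by
      intro τ hτ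
      have e1 : |τ - 2 * δ1 * m| ≤ δ1 := by
        rw [abs_le]
        constructor
        · linarith [hτ.1]
        · linarith [hτ.2]
      have e6 : 2 * δ1 * M ≤ |τ| + δ1 := by
        have e7 : |2 * δ1 * (m : ℝ)| = 2 * δ1 * M := by
          rw [abs_mul, abs_of_pos (by positivity : (0 : ℝ) < 2 * δ1)]
        have e8 := abs_sub_abs_le_abs_sub (2 * δ1 * (m : ℝ)) τ
        rw [abs_sub_comm, e7] at e8
        linarith
      rw [hq, hc2]
      nlinarith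
    have hJc : IsCompact (J m) := isCompact_Icc
    have hJv : volume.real (J m) = 2 * δ1 := by
      rw [measureReal_def, Real.volume_Icc, ENNReal.toReal_ofReal (by linarith)]
      ring
    set g : ℝ → ℝ := fun τ => 2 / q ^ 2 * ‖deriv L ((σ : ℂ) + (τ : ℂ) * I)‖ ^ 2 +
        4 / q ^ 4 * (‖L ((σ : ℂ) + (τ : ℂ) * I)‖ ^ 2 + κ ^ 2) with hg
    have hgc : Continuous g := (hcL'.const_smul (2 / q ^ 2)).add ((hcL.add continuous_const).const_smul (4 / q ^ 4))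
    have hgi : IntegrableOn g (J m) := hgc.continuousOn.integrableOn_compact hJc
    have hg0 : ∀ τ, 0 ≤ g τ := fun τ => by positivity
    have hLi : IntegrableOn (fun τ : ℝ => ‖L ((σ : ℂ) + (τ : ℂ) * I)‖ ^ 2) (J m) :=
      hcL.continuousOn.integrableOn_compact hJc
    have hLi' : IntegrableOn (fun τ : ℝ => ‖deriv L ((σ : ℂ) + (τ : ℂ) * I)‖ ^ 2) (J m) :=
      hcL'.continuousOn.integrableOn_compact hJc
    have hsub : ∀ δ' : ℝ, δ1 ≤ δ' → J m ⊆ Icc (2 * δ1 * m - δ') (2 * δ1 * m + δ') := by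
      intro δ' hδ' τ hτ
      exact ⟨by linarith [hτ.1], by linarith [hτ.2]⟩
    have hgb : ∫ τ in J m, g τ ≤ b m / σ := by
      have e1 : ∫ τ in J m, g τ =
          2 / q ^ 2 * (∫ τ in J m, ‖deriv L ((σ : ℂ) + (τ : ℂ) * I)‖ ^ 2) +
          4 / q ^ 4 * ((∫ τ in J m, ‖L ((σ : ℂ) + (τ : ℂ) * I)‖ ^ 2) + 2 * δ1 * κ ^ 2) := by
        have e0 : IntegrableOn (fun τ : ℝ => ‖L ((σ : ℂ) + (τ : ℂ) * I)‖ ^ 2 + κ ^ 2) (J m) :=
          hLi.add (integrableOn_const hJc.measure_lt_top.ne)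
        rw [hg, integral_add (hLi'.const_mul _) (e0.const_mul _), integral_const_mul, integral_const_mul,
          integral_add hLi (integrableOn_const hJc.measure_lt_top.ne), setIntegral_const, hJv, smul_eq_mul]
      have e2a : ∫ τ in J m, ‖L ((σ : ℂ) + (τ : ℂ) * I)‖ ^ 2 ≤ C2 * Real.log (2 + |2 * δ1 * (m : ℝ)|) ^ 2 := by
        refine le_trans ?_ (hL2 σ (2 * δ1 * m) hσ (hσ1.trans hF.hc1))
        exact setIntegral_mono_set (hcL.continuousOn.integrableOn_compact isCompact_Icc)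
          (Eventually.of_forall fun t => by positivity) (hsub δb h1b).eventuallyLE
      have e2b : ∫ τ in J m, ‖deriv L ((σ : ℂ) + (τ : ℂ) * I)‖ ^ 2 ≤
          C * Real.log (2 + |2 * δ1 * (m : ℝ)|) ^ 2 / σ := by
        refine le_trans ?_ (hL3 σ (2 * δ1 * m) hσ hσ1)
        exact setIntegral_mono_set (hcL'.continuousOn.integrableOn_compact isCompact_Icc)
          (Eventually.of_forall fun t => by positivity) (hsub δa h1a).eventuallyLE
      have e3 : Real.log (2 + |2 * δ1 * (m : ℝ)|) ≤ 4 * D * (1 + M) ^ (1 / 4 : ℝ) := by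
        have e7 : |2 * δ1 * (m : ℝ)| = 2 * δ1 * M := by
          rw [abs_mul, abs_of_pos (by positivity : (0 : ℝ) < 2 * δ1)]
        rw [e7]
        have : 0 ≤ 2 * δ1 * M := by positivity
        exact k3_log D M (by linarith) hM _ (by linarith) (by rw [hD]; nlinarith)
      have e4 : 0 ≤ Real.log (2 + |2 * δ1 * (m : ℝ)|) :=
        Real.log_nonneg (by linarith [abs_nonneg (2 * δ1 * (m : ℝ))])
      have e5 : Real.log (2 + |2 * δ1 * (m : ℝ)|) ^ 2 ≤ 16 * D ^ 2 * (1 + M) ^ (1 / 2 : ℝ) := by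
        have h5 : Real.log (2 + |2 * δ1 * (m : ℝ)|) ^ 2 ≤ (4 * D * (1 + M) ^ (1 / 4 : ℝ)) ^ 2 := by
          gcongr
        have h6 : ((1 + M) ^ (1 / 4 : ℝ)) ^ 2 = (1 + M) ^ (1 / 2 : ℝ) := by
          rw [← Real.rpow_natCast, ← Real.rpow_mul (by linarith)]
          norm_num
        calc _ ≤ (4 * D * (1 + M) ^ (1 / 4 : ℝ)) ^ 2 := h5
          _ = 16 * D ^ 2 * ((1 + M) ^ (1 / 4 : ℝ)) ^ 2 := by ring
          _ = _ := by rw [h6]
      have e6 : 1 ≤ (1 + M) ^ (1 / 2 : ℝ) := Real.one_le_rpow (by linarith) (by norm_num)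
      set P : ℝ := (1 + M) ^ (1 / 2 : ℝ) with hP
      have hP0 : 0 ≤ P := by linarith
      have e7 : (∫ τ in J m, ‖L ((σ : ℂ) + (τ : ℂ) * I)‖ ^ 2) + 2 * δ1 * κ ^ 2 ≤
          (16 * D ^ 2 * C2 + 2 * δ1 * κ ^ 2) * P / σ := by
        have h7 := mul_le_mul_of_nonneg_left e5 hC2
        have h8 : 2 * δ1 * κ ^ 2 * 1 ≤ 2 * δ1 * κ ^ 2 * P :=
          mul_le_mul_of_nonneg_left e6 (by positivity)
        have h9 : (∫ τ in J m, ‖L ((σ : ℂ) + (τ : ℂ) * I)‖ ^ 2) + 2 * δ1 * κ ^ 2 ≤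
          (16 * D ^ 2 * C2 + 2 * δ1 * κ ^ 2) * P := by linarith
        refine h9.trans ?_
        rw [le_div_iff₀ hσ]
        have h10 : 0 ≤ (16 * D ^ 2 * C2 + 2 * δ1 * κ ^ 2) * P := by positivity
        nlinarith
      have e7' : ∫ τ in J m, ‖deriv L ((σ : ℂ) + (τ : ℂ) * I)‖ ^ 2 ≤ (16 * D ^ 2 * C) * P / σ := by
        refine e2b.trans ?_
        have h7 := mul_le_mul_of_nonneg_left e5 hC
        have h8 : C * Real.log (2 + |2 * δ1 * (m : ℝ)|) ^ 2 ≤ (16 * D ^ 2 * C) * P := by linarith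
        exact div_le_div_of_nonneg_right h8 hσ.le
      have e8 : (1 + M) ^ (-(3 / 2) : ℝ) = P / (1 + M) ^ 2 := by
        rw [hP, show (-(3 / 2) : ℝ) = 1 / 2 - 2 by norm_num, Real.rpow_sub (by linarith)]
        norm_num
      have e10 : 4 / q ^ 4 ≤ 4 / c2 ^ 4 / (1 + M) ^ 2 := by
        rw [hq, div_div]
        apply div_le_div_of_nonneg_left (by norm_num) (by positivity)
        rw [mul_pow]
        apply mul_le_mul_of_nonneg_left _ (by positivity)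
        calc (1 + M) ^ 2 ≤ (1 + M) ^ 4 := pow_le_pow_right₀ (by linarith) (by norm_num)
          _ = (1 + M) ^ 4 := rfl
      have e11 : 2 / q ^ 2 = 2 / c2 ^ 2 / (1 + M) ^ 2 := by
        rw [hq, mul_pow, div_div]
      rw [e1]
      calc 2 / q ^ 2 * (∫ τ in J m, ‖deriv L ((σ : ℂ) + (τ : ℂ) * I)‖ ^ 2) +
            4 / q ^ 4 * ((∫ τ in J m, ‖L ((σ : ℂ) + (τ : ℂ) * I)‖ ^ 2) + 2 * δ1 * κ ^ 2)
          ≤ 2 / q ^ 2 * ((16 * D ^ 2 * C) * P / σ) +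
            4 / q ^ 4 * ((16 * D ^ 2 * C2 + 2 * δ1 * κ ^ 2) * P / σ) :=
            add_le_add (mul_le_mul_of_nonneg_left e7' (by positivity)) (mul_le_mul_of_nonneg_left e7 (by positivity))
        _ ≤ 2 / c2 ^ 2 / (1 + M) ^ 2 * ((16 * D ^ 2 * C) * P / σ) +
            4 / c2 ^ 4 / (1 + M) ^ 2 * ((16 * D ^ 2 * C2 + 2 * δ1 * κ ^ 2) * P / σ) := by
            rw [e11]
            have : 0 ≤ (16 * D ^ 2 * C2 + 2 * δ1 * κ ^ 2) * P / σ := by positivity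
            gcongr
        _ = b m / σ := by
            simp only [hb]
            rw [← hMdef, e8, hC3]
            ring
    calc ∫⁻ τ in J m, ENNReal.ofReal (f τ) ≤ ∫⁻ τ in J m, ENNReal.ofReal (g τ) := by
          refine setLIntegral_mono hgc.measurable.ennreal_ofReal fun τ hτ =>
            ENNReal.ofReal_le_ofReal ?_
          exact k3_pt hLd κ σ τ q hσ hqp (hqt τ hτ)
      _ = ENNReal.ofReal (∫ τ in J m, g τ) :=
          (ofReal_integral_eq_lintegral_ofReal hgi (Eventually.of_forall hg0)).symm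
      _ ≤ ENNReal.ofReal (b m / σ) := ENNReal.ofReal_le_ofReal hgb
  have hcov : {τ : ℝ | 2 * δ1 * ((N : ℝ) + 1) < |τ|} ⊆ ⋃ m : {x : ℤ // x ∉ s}, J m := by
    intro τ hτ
    have hτ' : 2 * δ1 * ((N : ℝ) + 1) < |τ| := hτ
    have h1 := abs_sub_round (τ / (2 * δ1))
    have h1' := h1
    rw [abs_le] at h1
    have h2 : τ = τ / (2 * δ1) * (2 * δ1) := by field_simp
    have h3 : round (τ / (2 * δ1)) ∉ s := by
      intro h
      rw [hs, Finset.mem_Icc] at h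
      have h4 : |((round (τ / (2 * δ1)) : ℤ) : ℝ)| ≤ N := by
        rw [abs_le]
        constructor
        · exact_mod_cast h.1
        · exact_mod_cast h.2
      have h5 : |τ / (2 * δ1)| ≤ N + 1 / 2 := by
        have := abs_sub_abs_le_abs_sub (τ / (2 * δ1)) ((round (τ / (2 * δ1)) : ℤ) : ℝ)
        linarith
      have h6 : |τ| = |τ / (2 * δ1)| * (2 * δ1) := by
        conv_lhs => rw [h2]
        rw [abs_mul, abs_of_pos (by positivity : (0 : ℝ) < 2 * δ1)]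
      rw [h6] at hτ'
      nlinarith
    refine mem_iUnion.2 ⟨⟨round (τ / (2 * δ1)), h3⟩, ?_⟩
    constructor
    · show 2 * δ1 * ((round (τ / (2 * δ1)) : ℤ) : ℝ) - δ1 ≤ τ
      nlinarith [h1.1, h1.2]
    · show τ ≤ 2 * δ1 * ((round (τ / (2 * δ1)) : ℤ) : ℝ) + δ1
      nlinarith [h1.1, h1.2]
  have hbsσ : Summable fun m : {x : ℤ // x ∉ s} => b m / σ := (hbs.subtype _).div_const σ
  have hlint : ∫⁻ τ in {τ : ℝ | 2 * δ1 * ((N : ℝ) + 1) < |τ|}, ENNReal.ofReal (f τ) ≤ ENNReal.ofReal (e / σ) := by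
    calc ∫⁻ τ in {τ : ℝ | 2 * δ1 * ((N : ℝ) + 1) < |τ|}, ENNReal.ofReal (f τ)
        ≤ ∫⁻ τ in ⋃ m : {x : ℤ // x ∉ s}, J m, ENNReal.ofReal (f τ) := lintegral_mono_set hcov
      _ ≤ ∑' m : {x : ℤ // x ∉ s}, ∫⁻ τ in J m, ENNReal.ofReal (f τ) := lintegral_iUnion_le _ _
      _ ≤ ∑' m : {x : ℤ // x ∉ s}, ENNReal.ofReal (b m / σ) := ENNReal.tsum_le_tsum fun m => hJb m m.2
      _ = ENNReal.ofReal (∑' m : {x : ℤ // x ∉ s}, b m / σ) :=
          (ENNReal.ofReal_tsum_of_nonneg (fun m => div_nonneg (hb0 _) hσ.le) hbsσ).symm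
      _ ≤ ENNReal.ofReal (e / σ) := by
          apply ENNReal.ofReal_le_ofReal
          rw [tsum_div_const]
          exact div_le_div_of_nonneg_right hN hσ.le
  rw [integral_eq_lintegral_of_nonneg_ae (Eventually.of_forall hf0) hcV.aestronglyMeasurable]
  exact ENNReal.toReal_le_of_le_ofReal (by positivity) hlint

end Pool.Agent.Helper16.CR
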