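import Pool.Agent.Helper16.OM.Assem

/-!
CR V5, leaf U4a: with the functional equation, lower bounds for `GG` in the right half plane and a linear bound for the
number of zeros on the line `Re s = 1` are incompatible (Jensen's formula on circles).
-/

set_option autoImplicit false

namespace Pool.Agent.Helper16.CR

open Complex Filter Topology MeasureTheory Set
open Pool.Agent.Helper13.Bsd Pool.Agent.Helper7.GW Pool.Agent.Helper58.BSD Pool.Agent.Helper29.MS
open Pool.Agent.Helper16.OM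

section

variable (W : WeierstrassCurve ℤ) (N : ℕ → ℕ)
    (hNdef : ∀ p : ℕ, N p = 1 + ((Finset.range p ×ˢ Finset.range p).filter
      (fun q : ℕ × ℕ => (p : ℤ) ∣ ((q.2 : ℤ) ^ 2 + W.a₁ * (q.1 : ℤ) * (q.2 : ℤ) + W.a₃ * (q.2 : ℤ)
        - ((q.1 : ℤ) ^ 3 + W.a₂ * (q.1 : ℤ) ^ 2 + W.a₄ * (q.1 : ℤ) + W.a₆)))).card)

include hNdef in
theorem fe_core (hΔ : W.Δ ≠ 0) (F : ℂ → ℂ) (hFd : Differentiable ℂ F) (hF : EulerHyp W N F)
    (b c : ℕ → ℝ) (A : ℝ) (hA : 0 < A) (e : ℝ) (he : e = 1 ∨ e = -1) (L : ℂ → ℂ) (hL : Differentiable ℂ L)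
    (hLF : ∀ s : ℂ, 0 < s.re → L s * ∏ p ∈ W.Δ.natAbs.primeFactors,
      (1 - (b p : ℂ) * (p : ℂ) ^ (-s) + (c p : ℂ) * (p : ℂ) ^ (1 - 2 * s)) = (A : ℂ) ^ s * Gamma s * F s)
    (hfe : ∀ s : ℂ, L (2 - s) = e * L s)
    (K : ℝ) (hK0 : 0 ≤ K) (hne : ∀ w : ℂ, 0 < w.re → F (1 + w) ≠ 0)
    (hlow : ∃ C : ℝ, 0 ≤ C ∧ ∀ w : ℂ, 0 < w.re → 1 ≤ ‖w‖ →
      -(C * ‖w‖ * (1 + (Real.log ‖w‖ - Real.log w.re))) ≤ Real.log ‖GG N (badW W) F w‖)
    (hcount : ∀ (R : ℝ) (Z : Finset ℂ), 0 < R → (∀ ρ ∈ Z, ρ.re = 1 ∧ ρ.im ≠ 0 ∧ |ρ.im| ≤ R) →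
      ∑ ρ ∈ Z, (analyticOrderNatAt F ρ : ℝ) ≤ 2 * R * K) : False := by
  classical
  have hN := nhyp W N hNdef
  have hB : EulerB N (badW W) F := hF
  obtain ⟨C, hC0, hC⟩ := hlow
  obtain ⟨C8, hC8, hb8⟩ := Rf_Pr_bdd (bad := badW W) hN
  obtain ⟨hDd, M, hM1, hDM⟩ := euler_bad W.Δ.natAbs.primeFactors
    (fun p hp => Nat.prime_of_mem_primeFactors hp) b c
  set D : ℂ → ℂ := fun s => ∏ p ∈ W.Δ.natAbs.primeFactors,
    (1 - (b p : ℂ) * (p : ℂ) ^ (-s) + (c p : ℂ) * (p : ℂ) ^ (1 - 2 * s)) with hD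
  have hLF' : ∀ s : ℂ, 0 < s.re → L s * D s = (A : ℂ) ^ s * Gamma s * F s := hLF
  have hA0 : (A : ℂ) ≠ 0 := by exact_mod_cast hA.ne'
  set X : ℂ → ℂ := fun w => L (1 + w) with hX
  have hXd : Differentiable ℂ X := hL.comp ((differentiable_const _).add differentiable_id)
  have hXsym : ∀ w, X (-w) = e * X w := by
    intro w
    simp only [hX]
    rw [← hfe]
    congr 1
    ring
  have hXn : ∀ w, ‖X (-w)‖ = ‖X w‖ := by
    intro w
    rw [hXsym, norm_mul]
    have : ‖(e : ℂ)‖ = 1 := by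
      rcases he with h' | h' <;> rw [h'] <;> simp
    rw [this, one_mul]
  -- the right half plane
  have hXne : ∀ w : ℂ, 0 < w.re → X w ≠ 0 ∧ D (1 + w) ≠ 0 := by
    intro w hw
    have hre : 0 < (1 + w).re := by
      rw [add_re, one_re]
      linarith
    have h1 := hLF' (1 + w) hre
    have h2 : (A : ℂ) ^ (1 + w) * Gamma (1 + w) * F (1 + w) ≠ 0 := by
      refine mul_ne_zero (mul_ne_zero ?_ (Gamma_ne_zero_of_re_pos hre)) (hne w hw)
      rw [cpow_def_of_ne_zero hA0]
      exact exp_ne_zero _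
    rw [← h1] at h2
    exact ⟨left_ne_zero_of_mul h2, right_ne_zero_of_mul h2⟩
  set A' : ℝ := 1 + 2 * |Real.log A| + Real.pi / 2 + C + 2 * C8 + M with hA'
  have hlow2 : ∀ w : ℂ, 0 < w.re → ∀ R : ℝ, 1 ≤ R → ‖w‖ = R →
      w.re ^ 2 / R * Real.log R - A' * R - C * R * (Real.log R - Real.log w.re) ≤ Real.log ‖X w‖ := by
    intro w hw R hR hwR
    have hR0 : 0 < R := by linarith
    have hre : 0 < (1 + w).re := by
      rw [add_re, one_re]
      linarith
    obtain ⟨h1, h2⟩ := hXne w hw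
    have h3 := hne w hw
    have h4 := hLF' (1 + w) hre
    have hG0 : Gamma (1 + w) ≠ 0 := Gamma_ne_zero_of_re_pos hre
    have hAne : (A : ℂ) ^ (1 + w) ≠ 0 := by
      rw [cpow_def_of_ne_zero hA0]
      exact exp_ne_zero _
    have h5 : Real.log ‖X w‖ + Real.log ‖D (1 + w)‖ =
        Real.log ‖(A : ℂ) ^ (1 + w)‖ + Real.log ‖Gamma (1 + w)‖ + Real.log ‖F (1 + w)‖ := by
      rw [← Real.log_mul (norm_pos_iff.mpr h1).ne' (norm_pos_iff.mpr h2).ne',
        ← Real.log_mul (norm_pos_iff.mpr hAne).ne' (norm_pos_iff.mpr hG0).ne', ← norm_mul, ← norm_mul,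
        ← Real.log_mul (norm_pos_iff.mpr (mul_ne_zero hAne hG0)).ne' (norm_pos_iff.mpr h3).ne', ← norm_mul]
      congr 2
    -- the bad factors
    have h6 : Real.log ‖D (1 + w)‖ ≤ M := by
      have h7 := hDM (1 + w) (by rw [add_re, one_re]; linarith)
      have h8 := Real.log_le_sub_one_of_pos (norm_pos_iff.mpr h2)
      have h9 : ‖D (1 + w)‖ ≤ M := h7
      linarith
    -- the exponential factor
    have h7 : -(2 * |Real.log A| * R) ≤ Real.log ‖(A : ℂ) ^ (1 + w)‖ := by
      rw [norm_cpow_eq_rpow_re_of_pos hA, Real.log_rpow hA, add_re, one_re]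
      have h8 := neg_abs_le (Real.log A)
      have h9 : w.re ≤ R := by rw [← hwR]; exact re_le_norm w
      have h10 := abs_nonneg (Real.log A)
      nlinarith
    -- the Gamma factor
    have h8 : w.re ^ 2 / R * Real.log R - R - Real.pi / 2 * R ≤ Real.log ‖Gamma (1 + w)‖ := by
      have h9 := gamma_lower w.re w.im hw.le
      have e1 : (1 + (w.re : ℂ) + w.im * I) = 1 + w := by
        rw [add_assoc, re_add_im]
      rw [e1] at h9
      have hg : 0 < Real.Gamma (1 + w.re) := Real.Gamma_pos_of_pos (by linarith)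
      have h10 := Real.log_le_log (mul_pos hg (Real.exp_pos _)) h9
      rw [Real.log_mul hg.ne' (Real.exp_pos _).ne', Real.log_exp] at h10
      have h11 := gamma_real_lower w.re hw.le
      have h12 := xlogx_lower w.re R hw (by rw [← hwR]; exact re_le_norm w) hR
      have h13 : |w.im| ≤ R := by rw [← hwR]; exact abs_im_le_norm w
      have h14 : Real.pi / 2 * |w.im| ≤ Real.pi / 2 * R :=
        mul_le_mul_of_nonneg_left h13 (by have := Real.pi_pos; positivity)
      linarith
    -- the factor `F`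
    have h9 : -(C * R * (1 + (Real.log R - Real.log w.re))) - 2 * C8 ≤ Real.log ‖F (1 + w)‖ := by
      have h10 := hC w hw (by rw [hwR]; exact hR)
      rw [hwR] at h10
      obtain ⟨h11, h12⟩ := hb8 w hw.le
      set Pr : ℂ := ∏ p ∈ smallP, if badW W (p : ℕ) then (1 : ℂ) else 1 - zz N p w with hPr
      have hPr0 : Pr ≠ 0 := by
        rw [hPr]
        refine Finset.prod_ne_zero_iff.mpr ?_
        intro p _
        split_ifs
        · exact one_ne_zero
        · exact one_sub_zz_ne_zero' N hN.one_le hN.le p p.2 w hw.le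
      have e2 : GG N (badW W) F w = F (1 + w) * Pr * cexp (-Rf N (badW W) w) := by
        unfold GG Gf
        rfl
      have h13 : Real.log ‖GG N (badW W) F w‖ = Real.log ‖F (1 + w)‖ + Real.log ‖Pr‖ + (-Rf N (badW W) w).re := by
        rw [e2, norm_mul, norm_mul, norm_exp, Real.log_mul, Real.log_mul, Real.log_exp]
        · exact (norm_pos_iff.mpr h3).ne'
        · exact (norm_pos_iff.mpr hPr0).ne'
        · exact mul_ne_zero (norm_pos_iff.mpr h3).ne' (norm_pos_iff.mpr hPr0).ne'
        · exact (Real.exp_pos _).ne'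
      have h14 : (-Rf N (badW W) w).re ≤ C8 := by
        refine (re_le_norm _).trans ?_
        rw [norm_neg]
        exact h11
      have h15 := Real.log_le_sub_one_of_pos (norm_pos_iff.mpr hPr0)
      linarith
    have h10 : 2 * C8 + M ≤ (2 * C8 + M) * R := by nlinarith
    have h11 : A' * R = R + 2 * |Real.log A| * R + Real.pi / 2 * R + C * R + (2 * C8 + M) * R := by
      rw [hA']; ring
    rw [h11]
    linarith
  -- the count
  have hcount2 : ∀ (t : ℝ) (Z : Finset ℂ), 0 < t → (∀ u ∈ Z, u ≠ 0 ∧ ‖u‖ ≤ t) →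
      ∑ u ∈ Z, (analyticOrderNatAt X u : ℝ) ≤ 2 * (K + 1) * t := by
    intro t Z ht hZ
    set Z1 := Z.filter (fun u => u.re = 0) with hZ1
    have h1 : ∑ u ∈ Z, (analyticOrderNatAt X u : ℝ) = ∑ u ∈ Z1, (analyticOrderNatAt X u : ℝ) := by
      rw [hZ1, Finset.sum_filter]
      refine Finset.sum_congr rfl fun u hu => ?_
      split_ifs with h2
      · rfl
      · have h3 : X u ≠ 0 := by
          rcases lt_or_gt_of_ne h2 with h4 | h4
          · have h5 := (hXne (-u) (by rw [neg_re]; linarith)).1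
            rw [← norm_pos_iff] at h5 ⊢
            rw [hXn] at h5
            exact h5
          · exact (hXne u h4).1
        rw [analyticOrderNatAt, (hXd.analyticAt u).analyticOrderAt_eq_zero.mpr h3]
        simp
    have h2 : ∀ u ∈ Z1, analyticOrderNatAt X u ≤ analyticOrderNatAt F (1 + u) := by
      intro u hu
      have hu0 : u.re = 0 := (Finset.mem_filter.mp hu).2
      have hs1 : 0 < (1 + u).re := by rw [add_re, one_re, hu0]; norm_num
      have e1 : analyticOrderNatAt X u = analyticOrderNatAt L (1 + u) := by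
        have hd : HasDerivAt (fun w : ℂ => 1 + w) 1 u := (hasDerivAt_id u).const_add 1
        have e2 : analyticOrderAt (L ∘ fun w : ℂ => 1 + w) u = analyticOrderAt L (1 + u) :=
          analyticOrderAt_comp_of_deriv_ne_zero (analyticAt_const.add analyticAt_id)
            (by rw [hd.deriv]; exact one_ne_zero)
        unfold analyticOrderNatAt
        rw [← e2]
        rfl
      rw [e1]
      have hopen : IsOpen {s : ℂ | 0 < s.re} := isOpen_lt continuous_const continuous_re
      have hU : AnalyticAt ℂ (fun s => (A : ℂ) ^ s * Gamma s) (1 + u) := by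
        have h3 : DifferentiableOn ℂ (fun s => (A : ℂ) ^ s * Gamma s) {s : ℂ | 0 < s.re} := by
          intro s hs
          refine DifferentiableAt.differentiableWithinAt (DifferentiableAt.mul ?_ ?_)
          · exact (differentiableAt_id).const_cpow (Or.inl hA0)
          · apply differentiableAt_Gamma
            intro m hm
            have h4 : 0 < s.re := hs
            rw [hm] at h4
            simp at h4
            have := m.cast_nonneg (α := ℝ)
            linarith
        exact h3.analyticAt (hopen.mem_nhds hs1)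
      refine ord_le (hL.analyticAt _) (hFd.analyticAt _) hU (hDd.analyticAt _) ?_
        (ord_ne_top_all hN F hFd hB (1 + u)) ?_
      · refine mul_ne_zero ?_ (Gamma_ne_zero_of_re_pos hs1)
        rw [cpow_def_of_ne_zero hA0]
        exact exp_ne_zero _
      · filter_upwards [hopen.mem_nhds hs1] with s hs
        exact hLF' s hs
    have hinj : Set.InjOn (fun u : ℂ => 1 + u) (Z1 : Set ℂ) := fun x _ y _ hxy => add_left_cancel hxy
    have h3 : ∑ u ∈ Z1, (analyticOrderNatAt F (1 + u) : ℝ) =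
        ∑ ρ ∈ Z1.image (fun u : ℂ => 1 + u), (analyticOrderNatAt F ρ : ℝ) := by
      rw [Finset.sum_image hinj]
    have h4 := hcount t (Z1.image (fun u : ℂ => 1 + u)) ht (by
        intro ρ hρ
        obtain ⟨u, hu, rfl⟩ := Finset.mem_image.mp hρ
        obtain ⟨hu1, hu0⟩ := Finset.mem_filter.mp hu
        obtain ⟨h5, h6⟩ := hZ u hu1
        simp only [add_re, one_re, add_im, one_im, zero_add]
        refine ⟨by rw [hu0, add_zero], ?_, (abs_im_le_norm u).trans h6⟩
        intro h7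
        apply h5
        exact Complex.ext hu0 h7)
    rw [h1]
    calc ∑ u ∈ Z1, (analyticOrderNatAt X u : ℝ) ≤ ∑ u ∈ Z1, (analyticOrderNatAt F (1 + u) : ℝ) :=
          Finset.sum_le_sum fun u hu => by exact_mod_cast h2 u hu
      _ ≤ 2 * t * (K + 1) := by rw [h3]; exact h4.trans (by nlinarith)
      _ = 2 * (K + 1) * t := by ring
  obtain ⟨C5, hC5⟩ := jensen_count X hXd ⟨1, (hXne 1 (by rw [one_re]; exact one_pos)).1⟩ (2 * (K + 1))
    (by linarith) hcount2
  -- the contradiction
  have hmain : ∀ R : ℝ, 1 ≤ R → R / 2 * Real.log R - A' * R - C * R * Real.log 2 ≤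
      2 * (K + 1) * R + C5 * (1 + Real.log R) := by
    intro R hR
    have hint : CircleIntegrable (fun w => Real.log ‖X w‖) 0 R :=
      MeromorphicOn.circleIntegrable_log_norm fun z _ => (hXd.analyticAt z).meromorphicAt
    refine (circle_lower R hR (fun w => Real.log ‖X w‖) hint A' C hC0 ?_).trans (hC5 R hR)
    intro w hw hw0
    rcases lt_or_gt_of_ne hw0 with h1 | h1
    · have h2 := hlow2 (-w) (by rw [neg_re]; linarith) R hR (by rw [norm_neg]; exact hw)
      rw [hXn, neg_re, neg_sq] at h2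
      rw [abs_of_neg h1]
      exact h2
    · rw [abs_of_pos h1]
      exact hlow2 w h1 R hR hw
  set B : ℝ := A' + C * Real.log 2 + 2 * (K + 1) + |C5| with hBdef
  have hB0 : 0 ≤ B := by
    have := Real.log_nonneg (show (1 : ℝ) ≤ 2 by norm_num)
    have := Real.pi_pos
    rw [hBdef, hA']
    positivity
  have h1 := hmain (Real.exp (2 * B + 1)) (Real.one_le_exp (by linarith))
  rw [Real.log_exp] at h1
  set R := Real.exp (2 * B + 1) with hRdef
  have hR1 : 2 * B + 1 + 1 ≤ R := Real.add_one_le_exp _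
  have hR0 : 0 < R := Real.exp_pos _
  have h2 : C5 * (1 + (2 * B + 1)) ≤ |C5| * R := by
    have h3 : C5 * (1 + (2 * B + 1)) ≤ |C5| * (1 + (2 * B + 1)) :=
      mul_le_mul_of_nonneg_right (le_abs_self C5) (by linarith)
    have h4 : |C5| * (1 + (2 * B + 1)) ≤ |C5| * R :=
      mul_le_mul_of_nonneg_left (by linarith) (abs_nonneg C5)
    linarith
  have h3 : B * R = A' * R + C * R * Real.log 2 + 2 * (K + 1) * R + |C5| * R := by
    rw [hBdef]; ring
  have h4 : R / 2 * (2 * B + 1) = B * R + R / 2 := by ring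
  rw [h4] at h1
  linarith

end

end Pool.Agent.Helper16.CR
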